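import Pool.Agent.N906.FH.Stm
import Pool.Agent.N487.SZ_REG

set_option autoImplicit false

/-!
# Project FH (helper906), leaf REG2: lattice points near the cusp curve in residue classes (helper123)
-/

namespace Pool.Agent.N123.FH

open Finset Pool.Agent.N906.SZ Pool.Agent.N906.FH
open Pool.Agent.N487.SZ (cls_card)

/-- the number of the first coordinates -/
theorem fst_card (X : ℝ) (M : ℕ) (α : ℤ) (hX : 1 ≤ X) (hM : 1 ≤ M) (hMX : (M : ℝ) ≤ X ^ 2)
    (S : Finset ℤ) (hS : ∀ a ∈ S, (M : ℤ) ∣ a - α ∧ |(a : ℝ)| ≤ X ^ 2) :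
    (S.card : ℝ) ≤ 3 * (X ^ 2 / M) := by
  have hM0 : (0 : ℝ) < M := by exact_mod_cast hM
  have h1 := cls_card S M hM α (-(X ^ 2)) (X ^ 2) (by nlinarith) (fun a ha =>
    ⟨(hS a ha).1, abs_le.1 (hS a ha).2⟩)
  have h2 : 1 ≤ X ^ 2 / M := by
    rw [le_div_iff₀ hM0]
    linarith
  have e : (X ^ 2 - -(X ^ 2)) / (M : ℝ) = 2 * (X ^ 2 / M) := by ring
  linarith

/-- one class -/
theorem fiber (X Y : ℝ) (M : ℕ) (α β : ℤ) (hX : 1 ≤ X) (hY : 1 ≤ Y) (hM : 1 ≤ M)
    (hMX : (M : ℝ) ≤ X ^ 2) (G : Finset (ℤ × ℤ))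
    (hG : ∀ x ∈ G, (M : ℤ) ∣ x.1 - α ∧ (M : ℤ) ∣ x.2 - β ∧ Rg X Y x.1 x.2) :
    (G.card : ℝ) ≤ 900 * (Y / (X * (M : ℝ) ^ 2) + X ^ 2 / M) := by
  classical
  have hM0 : (0 : ℝ) < M := by exact_mod_cast hM
  have hX0 : 0 < X := by linarith
  have hY0 : 0 < Y := by linarith
  have hX6 : 0 < X ^ 6 := by positivity
  have hp2 : 0 ≤ X ^ 2 / (M : ℝ) := by positivity
  have hp1 : 0 ≤ Y / (X * (M : ℝ) ^ 2) := by positivity
  have hfst := fst_card X M α hX hM hMX (G.image Prod.fst) (by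
    intro a ha
    obtain ⟨x, hx, rfl⟩ := Finset.mem_image.1 ha
    exact ⟨(hG x hx).1, (hG x hx).2.2.1⟩)
  by_cases hcase : X ^ 6 / 100 ≤ Y
  · -- the box
    have hsub : G ⊆ (G.image Prod.fst) ×ˢ (G.image Prod.snd) := by
      intro x hx
      rw [Finset.mem_product]
      exact ⟨Finset.mem_image_of_mem _ hx, Finset.mem_image_of_mem _ hx⟩
    have hcard : (G.card : ℝ) ≤ (G.image Prod.fst).card * (G.image Prod.snd).card := by
      have := Finset.card_le_card hsub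
      rw [Finset.card_product] at this
      exact_mod_cast this
    have hsnd : ((G.image Prod.snd).card : ℝ) ≤ 3 * (X ^ 3 / M) := by
      have h1 := cls_card (G.image Prod.snd) M hM β (-(X ^ 3)) (X ^ 3) (by
        have : 0 < X ^ 3 := by positivity
        linarith) (by
        intro b hb
        obtain ⟨x, hx, rfl⟩ := Finset.mem_image.1 hb
        exact ⟨(hG x hx).2.1, abs_le.1 (hG x hx).2.2.2.1⟩)
      have h2 : 1 ≤ X ^ 3 / M := by
        rw [le_div_iff₀ hM0]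
        have : X ^ 2 ≤ X ^ 3 := pow_le_pow_right₀ hX (by norm_num)
        linarith
      have e : (X ^ 3 - -(X ^ 3)) / (M : ℝ) = 2 * (X ^ 3 / M) := by ring
      linarith
    have h1 : (G.card : ℝ) ≤ 3 * (X ^ 2 / M) * (3 * (X ^ 3 / M)) :=
      hcard.trans (mul_le_mul hfst hsnd (by positivity) (by positivity))
    have h2 : 3 * (X ^ 2 / (M : ℝ)) * (3 * (X ^ 3 / M)) = 900 * (X ^ 6 / 100 / (X * (M : ℝ) ^ 2)) := by
      field_simp
      ring
    have h3 : X ^ 6 / 100 / (X * (M : ℝ) ^ 2) ≤ Y / (X * (M : ℝ) ^ 2) := by gcongr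
    linarith
  · push Not at hcase
    have hD : ∀ x ∈ G, -Y ≤ 4 * (x.1 : ℝ) ^ 3 - 27 * (x.2 : ℝ) ^ 2 ∧
        4 * (x.1 : ℝ) ^ 3 - 27 * (x.2 : ℝ) ^ 2 ≤ Y := by
      intro x hx
      have h1 := (hG x hx).2.2.2.2.2
      unfold Dd at h1
      push_cast at h1
      exact abs_le.1 h1
    have ha : ∀ x ∈ G, X ^ 6 / 64 ≤ (x.1 : ℝ) ^ 3 := by
      intro x hx
      obtain ⟨-, -, h1, h2⟩ := (hG x hx).2.2
      have h3 : X ^ 6 ≤ 64 * |(x.1 : ℝ)| ^ 3 := by
        unfold Mx at h1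
        rcases le_total (|(x.1 : ℝ)| ^ 3) |((Dd x.1 x.2 : ℤ) : ℝ)| with h4 | h4
        · rw [max_eq_right h4] at h1
          linarith
        · rwa [max_eq_left h4] at h1
      rcases le_total 0 (x.1 : ℝ) with h4 | h4
      · rw [abs_of_nonneg h4] at h3
        linarith
      · rw [abs_of_nonpos h4] at h3
        have h5 := (hD x hx).1
        have h6 : (-(x.1 : ℝ)) ^ 3 = -((x.1 : ℝ) ^ 3) := by ring
        rw [h6] at h3
        nlinarith [sq_nonneg (x.2 : ℝ)]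
    have hfib : ∀ a ∈ G.image Prod.fst,
        ((G.filter (fun x => x.1 = a)).card : ℝ) ≤ 2 * (Y / (X ^ 3 * M) + 1) := by
      intro a haG
      obtain ⟨x₀, hx₀, hx₀a⟩ := Finset.mem_image.1 haG
      have ha3 : X ^ 6 / 64 ≤ (a : ℝ) ^ 3 := by rw [← hx₀a]; exact ha x₀ hx₀
      obtain ⟨s1, hs1⟩ : ∃ s1, s1 = √((4 * (a : ℝ) ^ 3 - Y) / 27) := ⟨_, rfl⟩
      obtain ⟨s2, hs2⟩ : ∃ s2, s2 = √((4 * (a : ℝ) ^ 3 + Y) / 27) := ⟨_, rfl⟩
      have hs1q : s1 ^ 2 = (4 * (a : ℝ) ^ 3 - Y) / 27 := by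
        rw [hs1]; exact Real.sq_sqrt (by linarith)
      have hs2q : s2 ^ 2 = (4 * (a : ℝ) ^ 3 + Y) / 27 := by
        rw [hs2]; exact Real.sq_sqrt (by linarith)
      have hs10 : 0 ≤ s1 := by rw [hs1]; exact Real.sqrt_nonneg _
      have hs20 : 0 ≤ s2 := by rw [hs2]; exact Real.sqrt_nonneg _
      have hs12 : s1 ≤ s2 := by
        rw [hs1, hs2]
        exact Real.sqrt_le_sqrt (by linarith)
      have hX3 : 0 < X ^ 3 := by positivity
      have hlow : X ^ 3 / 23 ≤ s1 := by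
        refine abs_le_of_sq_le_sq' ?_ hs10 |>.2
        rw [hs1q]
        have : (X ^ 3 / 23) ^ 2 = X ^ 6 / 529 := by ring
        rw [this]
        linarith
      have hdiff : s2 - s1 ≤ Y / X ^ 3 := by
        have h1 : (s2 - s1) * (s2 + s1) = 2 * Y / 27 := by
          have : (s2 - s1) * (s2 + s1) = s2 ^ 2 - s1 ^ 2 := by ring
          rw [this, hs1q, hs2q]
          ring
        have h2 : 2 * (X ^ 3 / 23) ≤ s2 + s1 := by linarith
        have h4 : (s2 - s1) * (2 * (X ^ 3 / 23)) ≤ 2 * Y / 27 := by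
          rw [← h1]
          exact mul_le_mul_of_nonneg_left h2 (by linarith)
        rw [le_div_iff₀ hX3]
        linarith
      obtain ⟨H, hH⟩ : ∃ H, H = (G.filter (fun x => x.1 = a)).image Prod.snd := ⟨_, rfl⟩
      have hHc : (G.filter (fun x => x.1 = a)).card = H.card := by
        rw [hH, Finset.card_image_of_injOn]
        intro x hx y hy hxy
        have h1 := (Finset.mem_filter.1 hx).2
        have h2 := (Finset.mem_filter.1 hy).2
        exact Prod.ext (h1.trans h2.symm) hxy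
      have hHm : ∀ b ∈ H, (M : ℤ) ∣ b - β ∧ s1 ^ 2 ≤ (b : ℝ) ^ 2 ∧ (b : ℝ) ^ 2 ≤ s2 ^ 2 := by
        intro b hb
        rw [hH] at hb
        obtain ⟨x, hx, rfl⟩ := Finset.mem_image.1 hb
        obtain ⟨hx3, hxa⟩ := Finset.mem_filter.1 hx
        have h2 := hD x hx3
        rw [hxa] at h2
        refine ⟨(hG x hx3).2.1, ?_, ?_⟩
        · rw [hs1q]; linarith
        · rw [hs2q]; linarith
      have hpos : (((H.filter (fun b => 0 ≤ b)).card : ℕ) : ℝ) ≤ (s2 - s1) / M + 1 := by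
        refine cls_card _ M hM β s1 s2 hs12 ?_
        intro b hb
        obtain ⟨hb1, hb2⟩ := Finset.mem_filter.1 hb
        obtain ⟨h1, h2, h3⟩ := hHm b hb1
        have hb0 : (0 : ℝ) ≤ b := by exact_mod_cast hb2
        exact ⟨h1, (pow_le_pow_iff_left₀ hs10 hb0 two_ne_zero).1 h2,
          (pow_le_pow_iff_left₀ hb0 hs20 two_ne_zero).1 h3⟩
      have hneg : (((H.filter (fun b => ¬ 0 ≤ b)).card : ℕ) : ℝ) ≤ (s2 - s1) / M + 1 := by
        have h0 := cls_card (H.filter (fun b => ¬ 0 ≤ b)) M hM β (-s2) (-s1) (by linarith) (by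
          intro b hb
          obtain ⟨hb1, hb2⟩ := Finset.mem_filter.1 hb
          obtain ⟨h1, h2, h3⟩ := hHm b hb1
          have hb0 : (0 : ℝ) ≤ -b := by
            push Not at hb2
            have : (b : ℝ) < 0 := by exact_mod_cast hb2
            linarith
          have h4 : s1 ≤ -(b : ℝ) :=
            (pow_le_pow_iff_left₀ hs10 hb0 two_ne_zero).1 (by rw [neg_sq]; exact h2)
          have h5 : -(b : ℝ) ≤ s2 :=
            (pow_le_pow_iff_left₀ hb0 hs20 two_ne_zero).1 (by rw [neg_sq]; exact h3)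
          exact ⟨h1, by linarith, by linarith⟩)
        calc _ ≤ (-s1 - -s2) / M + 1 := h0
          _ = _ := by ring
      have hsum : (H.card : ℝ) = ((H.filter (fun b => 0 ≤ b)).card : ℕ) +
          ((H.filter (fun b => ¬ 0 ≤ b)).card : ℕ) := by
        exact_mod_cast (Finset.card_filter_add_card_filter_not (s := H) (fun b => 0 ≤ b)).symm
      rw [hHc, hsum]
      have h9 : (s2 - s1) / M ≤ Y / X ^ 3 / M := by gcongr
      rw [div_div] at h9
      linarith
    have hcardsum : (G.card : ℝ) =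
        ∑ a ∈ G.image Prod.fst, ((G.filter (fun x => x.1 = a)).card : ℝ) := by
      have := Finset.card_eq_sum_card_image (Prod.fst) G
      exact_mod_cast this
    rw [hcardsum]
    calc ∑ a ∈ G.image Prod.fst, ((G.filter (fun x => x.1 = a)).card : ℝ)
        ≤ ∑ a ∈ G.image Prod.fst, 2 * (Y / (X ^ 3 * M) + 1) := Finset.sum_le_sum hfib
      _ = (G.image Prod.fst).card * (2 * (Y / (X ^ 3 * M) + 1)) := by
          rw [Finset.sum_const, nsmul_eq_mul]
      _ ≤ 3 * (X ^ 2 / M) * (2 * (Y / (X ^ 3 * M) + 1)) :=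
          mul_le_mul_of_nonneg_right hfst (by positivity)
      _ = 6 * (Y / (X * (M : ℝ) ^ 2)) + 6 * (X ^ 2 / M) := by
          field_simp
          norm_num
      _ ≤ _ := by linarith

theorem reg2 : S_REG2 := by
  classical
  refine ⟨900, by norm_num, ?_⟩
  intro X Y M ρ Q hX hY hM hMX hQ1 hQ2 hρ F hF
  have hM0 : (0 : ℝ) < M := by exact_mod_cast hM
  have hMz : (0 : ℤ) < M := by exact_mod_cast hM
  have hY0 : 0 < Y := by linarith
  have hX0 : 0 < X := by linarith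
  -- periodicity
  have hp1 : ∀ (k : ℤ) (a b : ℤ), Q (a + M * k) b ↔ Q a b := by
    intro k
    induction k using Int.induction_on with
    | zero => intro a b; simp
    | succ n ih =>
      intro a b
      rw [show a + (M : ℤ) * ((n : ℤ) + 1) = (a + M * n) + M by ring, hQ1, ih]
    | pred n ih =>
      intro a b
      rw [← ih a b, ← hQ1 (a + (M : ℤ) * (-(n : ℤ) - 1)) b]
      rw [show a + (M : ℤ) * (-(n : ℤ) - 1) + M = a + M * (-(n : ℤ)) by ring]
  have hp2 : ∀ (k : ℤ) (a b : ℤ), Q a (b + M * k) ↔ Q a b := by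
    intro k
    induction k using Int.induction_on with
    | zero => intro a b; simp
    | succ n ih =>
      intro a b
      rw [show b + (M : ℤ) * ((n : ℤ) + 1) = (b + M * n) + M by ring, hQ2, ih]
    | pred n ih =>
      intro a b
      rw [← ih a b, ← hQ2 a (b + (M : ℤ) * (-(n : ℤ) - 1))]
      rw [show b + (M : ℤ) * (-(n : ℤ) - 1) + M = b + M * (-(n : ℤ)) by ring]
  have hmod : ∀ a b : ℤ, Q (a % M) (b % M) ↔ Q a b := by
    intro a b
    rw [← hp1 (a / M) (a % M) (b % M), ← hp2 (b / M) _ (b % M), Int.emod_add_mul_ediv,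
      Int.emod_add_mul_ediv]
  obtain ⟨cl, hcl⟩ : ∃ cl : ℤ × ℤ → ℤ × ℤ, ∀ x, cl x = (x.1 % M, x.2 % M) := ⟨_, fun _ => rfl⟩
  have himg : ((F.image cl).card : ℝ) ≤ ρ := by
    refine hρ _ ?_
    intro y hy
    obtain ⟨x, hx, rfl⟩ := Finset.mem_image.1 hy
    rw [hcl]
    exact ⟨Int.emod_nonneg _ hMz.ne', Int.emod_lt_of_pos _ hMz, Int.emod_nonneg _ hMz.ne',
      Int.emod_lt_of_pos _ hMz, (hmod x.1 x.2).2 (hF x hx).2⟩
  have hcard : (F.card : ℝ) = ∑ c ∈ F.image cl, ((F.filter (fun x => cl x = c)).card : ℝ) := by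
    exact_mod_cast Finset.card_eq_sum_card_image cl F
  have hfib : ∀ c ∈ F.image cl, ((F.filter (fun x => cl x = c)).card : ℝ) ≤
      900 * (Y / (X * (M : ℝ) ^ 2) + X ^ 2 / M) := by
    intro c _
    refine fiber X Y M c.1 c.2 hX hY hM hMX _ ?_
    intro x hx
    obtain ⟨hx1, hx2⟩ := Finset.mem_filter.1 hx
    rw [hcl] at hx2
    refine ⟨?_, ?_, (hF x hx1).1⟩
    · rw [← hx2]
      exact Int.dvd_self_sub_emod
    · rw [← hx2]
      exact Int.dvd_self_sub_emod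
  rw [hcard]
  calc ∑ c ∈ F.image cl, ((F.filter (fun x => cl x = c)).card : ℝ)
      ≤ ∑ c ∈ F.image cl, 900 * (Y / (X * (M : ℝ) ^ 2) + X ^ 2 / M) := Finset.sum_le_sum hfib
    _ = (F.image cl).card * (900 * (Y / (X * (M : ℝ) ^ 2) + X ^ 2 / M)) := by
        rw [Finset.sum_const, nsmul_eq_mul]
    _ ≤ ρ * (900 * (Y / (X * (M : ℝ) ^ 2) + X ^ 2 / M)) :=
        mul_le_mul_of_nonneg_right himg (by positivity)
    _ = 900 * ρ * (Y / (X * (M : ℝ) ^ 2) + X ^ 2 / M) := by ring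

end Pool.Agent.N123.FH
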