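import Pool.Agent.N91.LC.Path

set_option autoImplicit false

/-!
# Local structure of the space off the exits and the fast lane; the level along paths (LC/LOC)
-/

namespace Pool.Agent.N123.LCLOC

open Real Filter Topology
open Pool.Agent.N91.LC

theorem EE_en (n : ℕ) : EE (en n) = 0 := by
  show th 0 (ell - ell) = 0
  rw [sub_self, th_zero_right]

theorem ne_en {x : X} {c : ℝ} (h0 : 0 ≤ c) (h : c < EE x.P) : x.P ≠ en x.n := by
  intro h1
  rw [h1, EE_en] at h
  linarith

theorem h_zero {x : X} {c : ℝ} (h0 : 0 ≤ c) (h : c < EE x.P) : x.h = 0 := by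
  rw [X.h_eq_zero_iff]
  exact x.hr.resolve_right (ne_en h0 h)

theorem loc1 : S_LOC1 := by
  intro x y c hd hE hG
  have hc0 : 0 ≤ c := dist_nonneg.trans hd.le
  have hne := ne_en hc0 hE
  have hh0 : hh x.n x.s = 0 := h_zero hc0 hE
  have hy0 := hh_nonneg y.n y.hs
  rcases AdmX.of_dist_lt hd with ⟨h1, -⟩ | h
  · exact absurd h1 hne
  · rcases h with h | ⟨q, q', c1, c2, hq, hq', h1, h2, h3⟩
    · have h4 : Adm3 x.P y.P c := h.mono x.ok.g0 y.ok.g0 (by rw [hh0]; linarith)
      rcases h4.cases with h5 | h5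
      · exact h5
      · exfalso
        unfold Exit at h5
        linarith [EE_nonneg y.ok, abs_nonneg (x.P.v - y.P.v)]
    · exfalso
      have h4 := h2.nonneg (gam_ok hq'.1 hq'.2) y.ok
      have h5 : dist x (gamX q) ≤ c1 := by
        apply AdmX.dist_le
        right
        have e : (gamX q).h = 0 := by
          rw [X.h_eq_zero_iff]; rfl
        have e' : hh (gamX q).n (gamX q).s = 0 := e
        rw [hh0, e', gamX_P hq.1 hq.2, sub_zero, sub_zero]
        exact Or.inl h1
      have h6 := infDist_le_gam x hq.1 hq.2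
      linarith [abs_nonneg (q - q')]

theorem loc2 : S_LOC2 := by
  intro x y hE hG hA
  obtain ⟨m, hm⟩ : ∃ m : ℝ, m = min (EE x.P) (min (Metric.infDist x GamS) (log (A x.P.g))) :=
    ⟨_, rfl⟩
  have hdm : dist x y < m := by
    rw [hm]
    exact lt_min hE (lt_min hG hA)
  have key : ∀ c ∈ Set.Ioo (dist x y) m, Strip x.P y.P c := by
    intro c hc
    have h2 : c < EE x.P := hc.2.trans_le (by rw [hm]; exact min_le_left _ _)
    have h3 : c < Metric.infDist x GamS :=
      hc.2.trans_le (by rw [hm]; exact (min_le_right _ _).trans (min_le_left _ _))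
    have h4 : c < log (A x.P.g) :=
      hc.2.trans_le (by rw [hm]; exact (min_le_right _ _).trans (min_le_right _ _))
    rcases loc1 x y c hc.1 h2 h3 with h5 | h5
    · exact h5
    · exfalso
      unfold Hub at h5
      linarith [sd_nonneg x.P y.P, log_A_nonneg y.P.g]
  have hev : ∀ᶠ c in 𝓝[>] (dist x y), c ∈ Set.Ioo (dist x y) m := Ioo_mem_nhdsGT hdm
  constructor
  · have ht : Tendsto (fun c => exp c * y.P.g) (𝓝[>] (dist x y)) (𝓝 (exp (dist x y) * y.P.g)) := by
      have : Continuous fun c : ℝ => exp c * y.P.g := by fun_prop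
      exact (this.tendsto _).mono_left nhdsWithin_le_nhds
    exact ge_of_tendsto ht (hev.mono fun c hc => (key c hc).1)
  · have ht : Tendsto (fun c => exp c * x.P.g) (𝓝[>] (dist x y)) (𝓝 (exp (dist x y) * x.P.g)) := by
      have : Continuous fun c : ℝ => exp c * x.P.g := by fun_prop
      exact (this.tendsto _).mono_left nhdsWithin_le_nhds
    exact ge_of_tendsto ht (hev.mono fun c hc => (key c hc).2.1)

theorem la : S_LA := by
  intro x y hE h1000
  refine X.pot_local (φ := fun x => log (A x.P.g)) (r := min (EE x.P) (1 / 1000)) ?_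
    (lt_min hE h1000)
  intro c hc h
  have hcE : c < EE x.P := hc.trans_le (min_le_left _ _)
  have hc1 : c < 1 / 1000 := hc.trans_le (min_le_right _ _)
  have hc0 : 0 ≤ c := h.nonneg
  have hx0 := hh_nonneg x.n x.hs
  have hy0 := hh_nonneg y.n y.hs
  rcases h with ⟨h1, -⟩ | h
  · exact absurd h1 (ne_en hc0 hcE)
  · rcases h with h | ⟨q, q', c1, c2, hq, hq', h1, h2, h3⟩
    · rcases h.cases with h5 | h5
      · have e1 := h5.la y.ok.g0
        have e2 := h5.symm.la x.ok.g0
        show |log (A x.P.g) - log (A y.P.g)| ≤ c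
        rw [abs_le]
        constructor <;> linarith
      · exfalso
        unfold Exit at h5
        linarith [EE_nonneg y.ok, abs_nonneg (x.P.v - y.P.v)]
    · have k1 := h1.nonneg x.ok (gam_ok hq.1 hq.2)
      have k2 := h2.nonneg (gam_ok hq'.1 hq'.2) y.ok
      have k3 := abs_nonneg (q - q')
      rcases h1.cases with h5 | h5
      · rcases h2.cases with h6 | h6
        · have e1 := h5.la (gam_g_nonneg q)
          have e2 := h5.symm.la x.ok.g0
          have e3 := h6.la y.ok.g0
          have e4 := h6.symm.la (gam_g_nonneg q')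
          rw [la_gam hq.1] at e1 e2
          rw [la_gam hq'.1] at e3 e4
          show |log (A x.P.g) - log (A y.P.g)| ≤ c
          rw [abs_le]
          constructor <;> linarith [le_abs_self (q - q'), neg_abs_le (q - q')]
        · exfalso
          unfold Exit at h6
          have := gam_EE_ge hq'.1 hq'.2
          norm_num at this hc1
          linarith [EE_nonneg y.ok, abs_nonneg ((gam q').v - y.P.v)]
      · exfalso
        unfold Exit at h5
        linarith [EE_nonneg (gam_ok hq.1 hq.2), abs_nonneg (x.P.v - (gam q).v)]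

/-- a continuous function which has an earlier larger value at every inner point decreases -/
theorem one_var {χ : ℝ → ℝ} {u v : ℝ} (huv : u < v) (hχ : ContinuousOn χ (Set.Icc u v))
    (h : ∀ t, u < t → t < v → ∃ t', u ≤ t' ∧ t' < t ∧ χ t ≤ χ t') : χ v ≤ χ u := by
  by_contra hcon
  push Not at hcon
  obtain ⟨m, hm1, hm2⟩ := exists_between hcon
  obtain ⟨S, hS⟩ : ∃ S : Set ℝ, S = Set.Icc u v ∩ χ ⁻¹' Set.Ici m := ⟨_, rfl⟩
  have hSc : IsCompact S := by
    have : IsClosed S := by
      rw [hS]
      exact hχ.preimage_isClosed_of_isClosed isClosed_Icc isClosed_Ici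
    exact isCompact_Icc.of_isClosed_subset this (by rw [hS]; exact Set.inter_subset_left)
  have hne : S.Nonempty := ⟨v, by rw [hS]; exact ⟨⟨huv.le, le_rfl⟩, hm2.le⟩⟩
  have h1 := hSc.sInf_mem hne
  obtain ⟨t, ht, htm⟩ := intermediate_value_Icc huv.le hχ ⟨hm1.le, hm2.le⟩
  have htS : t ∈ S := by
    rw [hS]
    exact ⟨ht, by rw [Set.mem_preimage, htm]; exact Set.mem_Ici.2 le_rfl⟩
  have h2 : sInf S ≤ t := csInf_le hSc.bddBelow htS
  have htv : t < v := lt_of_le_of_ne ht.2 (by rintro rfl; linarith)
  have hmem : ∀ x ∈ S, x ∈ Set.Icc u v ∧ m ≤ χ x := by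
    intro x hx
    rw [hS] at hx
    exact hx
  obtain ⟨h3, h4⟩ := hmem _ h1
  have hu : u < sInf S := lt_of_le_of_ne h3.1 (by
    intro h5
    rw [← h5] at h4
    linarith)
  obtain ⟨t', h6, h7, h8⟩ := h _ hu (h2.trans_lt htv)
  have h9 : t' ∈ S := by
    rw [hS]
    exact ⟨⟨h6, (h7.trans_le h3.2).le⟩, h4.trans h8⟩
  exact absurd (csInf_le hSc.bddBelow h9) (not_le.2 h7)

theorem one_var' {χ : ℝ → ℝ} {u v : ℝ} (huv : u < v) (hχ : ContinuousOn χ (Set.Icc u v))
    (h : ∀ t, u < t → t < v → ∃ t', t < t' ∧ t' ≤ v ∧ χ t ≤ χ t') : χ u ≤ χ v := by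
  have h1 := one_var (χ := fun s => χ (u + v - s)) huv (by
    refine hχ.comp (by fun_prop) ?_
    intro s hs
    exact ⟨by linarith [hs.2], by linarith [hs.1]⟩) (by
    intro t h1 h2
    obtain ⟨t', h3, h4, h5⟩ := h (u + v - t) (by linarith) (by linarith)
    refine ⟨u + v - t', by linarith, by linarith, ?_⟩
    show χ (u + v - t) ≤ χ (u + v - (u + v - t'))
    rw [show u + v - (u + v - t') = t' by ring]
    exact h5)
  have e1 : u + v - v = u := by ring
  have e2 : u + v - u = v := by ring
  rw [e1, e2] at h1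
  exact h1

theorem gpath : S_GPATH := by
  intro f hf u v hu huv hE hG
  have hcL : ContinuousOn (fun t => log (A (f t).P.g)) (Set.Icc u v) := by
    intro t ht
    rw [Metric.continuousWithinAt_iff]
    intro ε hε
    have hEt := hE t ht.1 ht.2
    refine ⟨min ε (min (EE (f t).P) (1 / 1000)), lt_min hε (lt_min hEt (by norm_num)), ?_⟩
    intro s hs hst
    rw [Real.dist_eq] at hst
    have h1 : dist (f t) (f s) ≤ |t - s| := hf t s (hu.trans ht.1) (hu.trans hs.1)
    rw [abs_sub_comm] at h1
    have h2 := la (f t) (f s)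
      (h1.trans_lt (hst.trans_le ((min_le_right _ _).trans (min_le_left _ _))))
      (h1.trans_lt (hst.trans_le ((min_le_right _ _).trans (min_le_right _ _))))
    rw [Real.dist_eq, abs_sub_comm]
    exact (h2.trans h1).trans_lt (hst.trans_le (min_le_left _ _))
  have hcg : ContinuousOn (fun t => (f t).P.g) (Set.Icc u v) := by
    have e : (fun t => (f t).P.g) = fun t => Real.sqrt (exp (2 * log (A (f t).P.g)) - 1) := by
      funext t
      have h1 : exp (2 * log (A (f t).P.g)) = 1 + (f t).P.g ^ 2 := by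
        rw [← A_sq, show 2 * log (A (f t).P.g) = log (A (f t).P.g) + log (A (f t).P.g) by ring,
          exp_add, exp_log (A_pos _), sq]
      rw [h1, show 1 + (f t).P.g ^ 2 - 1 = (f t).P.g ^ 2 by ring, Real.sqrt_sq (f t).ok.g0]
    rw [e]
    have h1 : ContinuousOn (fun t => exp (2 * log (A (f t).P.g))) (Set.Icc u v) :=
      (hcL.const_mul 2).rexp
    exact (h1.sub continuousOn_const).sqrt
  have hr : ∀ t, u < t → t < v → 0 < (f t).P.g → ∃ r : ℝ, 0 < r ∧ ∀ t', 0 ≤ t' → |t - t'| < r →
      (f t).P.g ≤ exp |t - t'| * (f t').P.g := by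
    intro t h1 h2 h3
    have hlA : 0 < log (A (f t).P.g) := by
      apply log_pos
      have h4 := A_sq (f t).P.g
      have h5 := A_pos (f t).P.g
      nlinarith
    refine ⟨min (EE (f t).P) (min (Metric.infDist (f t) GamS) (log (A (f t).P.g))),
      lt_min (hE t h1.le h2.le) (lt_min (hG t h1 h2) hlA), ?_⟩
    intro t' ht' htt
    have h4 : dist (f t) (f t') ≤ |t - t'| := hf t t' (hu.trans h1.le) ht'
    have h5 := (loc2 (f t) (f t') (h4.trans_lt (htt.trans_le (min_le_left _ _)))
      (h4.trans_lt (htt.trans_le ((min_le_right _ _).trans (min_le_left _ _))))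
      (h4.trans_lt (htt.trans_le ((min_le_right _ _).trans (min_le_right _ _))))).1
    refine h5.trans (mul_le_mul_of_nonneg_right (exp_le_exp.2 h4) (f t').ok.g0)
  constructor
  · have h1 := one_var (χ := fun t => exp (-t) * (f t).P.g) huv
      ((by fun_prop : Continuous fun t : ℝ => exp (-t)).continuousOn.mul hcg) (by
      intro t h1 h2
      rcases (f t).ok.g0.eq_or_lt with h3 | h3
      · refine ⟨u, le_rfl, h1, ?_⟩
        show exp (-t) * (f t).P.g ≤ exp (-u) * (f u).P.g
        rw [← h3, mul_zero]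
        exact mul_nonneg (exp_pos _).le (f u).ok.g0
      · obtain ⟨r, hr0, hr1⟩ := hr t h1 h2 h3
        refine ⟨max u (t - r / 2), le_max_left _ _, max_lt h1 (by linarith), ?_⟩
        obtain ⟨t', ht'⟩ : ∃ t' : ℝ, t' = max u (t - r / 2) := ⟨_, rfl⟩
        rw [← ht']
        have h4 : u ≤ t' := by rw [ht']; exact le_max_left _ _
        have h5 : t - r / 2 ≤ t' := by rw [ht']; exact le_max_right _ _
        have h6 : t' < t := by rw [ht']; exact max_lt h1 (by linarith)
        have h7 : |t - t'| = t - t' := abs_of_pos (by linarith)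
        have h8 := hr1 t' (hu.trans h4) (by rw [h7]; linarith)
        rw [h7] at h8
        show exp (-t) * (f t).P.g ≤ exp (-t') * (f t').P.g
        calc exp (-t) * (f t).P.g ≤ exp (-t) * (exp (t - t') * (f t').P.g) := by gcongr
          _ = (exp (-t) * exp (t - t')) * (f t').P.g := by ring
          _ = exp (-t') * (f t').P.g := by
              rw [← exp_add]; congr 2; ring)
    have h2 : exp (-v) * (f v).P.g ≤ exp (-u) * (f u).P.g := h1
    calc (f v).P.g = exp v * (exp (-v) * (f v).P.g) := by
          rw [← mul_assoc, ← exp_add, add_neg_cancel, exp_zero, one_mul]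
      _ ≤ exp v * (exp (-u) * (f u).P.g) := by gcongr
      _ = exp (v - u) * (f u).P.g := by
          rw [← mul_assoc, ← exp_add]; congr 2
  · have h1 := one_var' (χ := fun t => exp t * (f t).P.g) huv
      ((by fun_prop : Continuous fun t : ℝ => exp t).continuousOn.mul hcg) (by
      intro t h1 h2
      rcases (f t).ok.g0.eq_or_lt with h3 | h3
      · refine ⟨v, h2, le_rfl, ?_⟩
        show exp t * (f t).P.g ≤ exp v * (f v).P.g
        rw [← h3, mul_zero]
        exact mul_nonneg (exp_pos _).le (f v).ok.g0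
      · obtain ⟨r, hr0, hr1⟩ := hr t h1 h2 h3
        refine ⟨min v (t + r / 2), lt_min h2 (by linarith), min_le_left _ _, ?_⟩
        obtain ⟨t', ht'⟩ : ∃ t' : ℝ, t' = min v (t + r / 2) := ⟨_, rfl⟩
        rw [← ht']
        have h4 : t' ≤ v := by rw [ht']; exact min_le_left _ _
        have h5 : t' ≤ t + r / 2 := by rw [ht']; exact min_le_right _ _
        have h6 : t < t' := by rw [ht']; exact lt_min h2 (by linarith)
        have h7 : |t - t'| = t' - t := by rw [abs_of_neg (by linarith)]; ring
        have h8 := hr1 t' (by linarith) (by rw [h7]; linarith)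
        rw [h7] at h8
        show exp t * (f t).P.g ≤ exp t' * (f t').P.g
        calc exp t * (f t).P.g ≤ exp t * (exp (t' - t) * (f t').P.g) := by gcongr
          _ = (exp t * exp (t' - t)) * (f t').P.g := by ring
          _ = exp t' * (f t').P.g := by
              rw [← exp_add]; congr 2; ring)
    have h2 : exp u * (f u).P.g ≤ exp v * (f v).P.g := h1
    calc (f u).P.g = exp (-u) * (exp u * (f u).P.g) := by
          rw [← mul_assoc, ← exp_add, neg_add_cancel, exp_zero, one_mul]
      _ ≤ exp (-u) * (exp v * (f v).P.g) := by gcongr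
      _ = exp (v - u) * (f v).P.g := by
          rw [← mul_assoc, ← exp_add]; congr 2; ring

end Pool.Agent.N123.LCLOC
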