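import Pool.Agent.N367.LE.Stm

/-!
# Project LE, part G5 (helper123): the number of principal ideals of given norm
-/

set_option autoImplicit false

namespace Pool.Agent.N123.LEG5

open H419R2 Pool.Agent.N911 Pool.Agent.N367.LE Finset

/-- the element `√D` -/
def dl (n : ℕ) : QA 1 (n : ℤ) := ⟨-(n : ℤ), 2⟩

lemma norm_dl (n : ℕ) : QuadraticAlgebra.norm (dl n) = -((n : ℤ) ^ 2 + 4) := by
  rw [norm_eq]
  simp only [dl]
  ring

/-- divisibility by `√D` -/
lemma dl_dvd {n : ℕ} (hn : n % 2 = 1) (hsf : Squarefree ((n : ℤ) ^ 2 + 4)) {z : QA 1 (n : ℤ)}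
    (h : ((n : ℤ) ^ 2 + 4) ∣ QuadraticAlgebra.norm z) : dl n ∣ z := by
  obtain ⟨c, hc⟩ := h
  rw [norm_eq] at hc
  have h1 : ((n : ℤ) ^ 2 + 4) ∣ (2 * z.re + n * z.im) ^ 2 :=
    ⟨4 * c + z.im ^ 2, by linear_combination 4 * hc⟩
  rw [hsf.dvd_pow_iff_dvd two_ne_zero] at h1
  obtain ⟨s, hs⟩ := h1
  obtain ⟨v, hv⟩ : ∃ v : ℤ, (n : ℤ) = 2 * v + 1 := ⟨(n : ℤ) / 2, by omega⟩
  refine ⟨⟨(v * n + 2) * s - z.re - v * z.im, s⟩, ?_⟩
  ext
  · simp only [QuadraticAlgebra.re_mul, dl]
    linear_combination -v * hs + (2 * s - z.re) * hv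
  · simp only [QuadraticAlgebra.im_mul, dl]
    linear_combination hs + (n * s - z.im) * hv

section

variable {n : ℕ} [IsDedekindDomain (QA 1 (n : ℤ))]

lemma absNorm_dl : Ideal.absNorm (Ideal.span {dl n}) = n ^ 2 + 4 := by
  rw [Ideal.absNorm_span_singleton, algebra_norm_eq, norm_dl, Int.natAbs_neg]
  have : ((n : ℤ) ^ 2 + 4) = ((n ^ 2 + 4 : ℕ) : ℤ) := by push_cast; rfl
  rw [this, Int.natAbs_natCast]

lemma le_span (hn : n % 2 = 1) (hsf : Squarefree ((n : ℤ) ^ 2 + 4)) (I : Ideal (QA 1 (n : ℤ)))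
    {k : ℕ} (h : Ideal.absNorm I = (n ^ 2 + 4) * k) : I ≤ Ideal.span {dl n} := by
  intro z hz
  rw [Ideal.mem_span_singleton]
  apply dl_dvd hn hsf
  have h1 := Ideal.absNorm_dvd_norm_of_mem hz
  rw [h, algebra_norm_eq] at h1
  refine Dvd.dvd.trans ⟨(k : ℤ), ?_⟩ h1
  push_cast
  ring

lemma pcnt_mul (hn : n % 2 = 1) (hsf : Squarefree ((n : ℤ) ^ 2 + 4)) (k : ℕ) :
    pcnt n ((n ^ 2 + 4) * k) = pcnt n k := by
  have hN : Ideal.absNorm (Ideal.span {dl n}) = n ^ 2 + 4 := absNorm_dl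
  have hP0 : Ideal.span {dl n} ≠ 0 := by
    intro h0
    rw [h0] at hN
    simp at hN
  unfold pcnt
  have h1 : {I : Ideal (QA 1 (n : ℤ)) | I.IsPrincipal ∧ Ideal.absNorm I = (n ^ 2 + 4) * k} =
      (fun J => Ideal.span {dl n} * J) ''
        {I : Ideal (QA 1 (n : ℤ)) | I.IsPrincipal ∧ Ideal.absNorm I = k} := by
    ext I
    simp only [Set.mem_ofPred_eq, Set.mem_image]
    constructor
    · rintro ⟨h1, h2⟩
      have h3 := le_span hn hsf I h2
      obtain ⟨J, rfl⟩ := Ideal.dvd_iff_le.2 h3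
      refine ⟨J, ⟨?_, ?_⟩, rfl⟩
      · obtain ⟨z, hz⟩ := h1.principal
        have hz' : Ideal.span {dl n} * J = Ideal.span {z} := hz
        have h4 : z ∈ Ideal.span {dl n} := by
          apply h3
          rw [hz']
          exact Ideal.mem_span_singleton_self z
        rw [Ideal.mem_span_singleton] at h4
        obtain ⟨w, rfl⟩ := h4
        rw [← Ideal.span_singleton_mul_span_singleton] at hz'
        have h5 := mul_left_cancel₀ hP0 hz'
        rw [h5]
        exact ⟨w, rfl⟩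
      · rw [map_mul, hN] at h2
        exact Nat.eq_of_mul_eq_mul_left (by positivity) h2
    · rintro ⟨J, ⟨h1, h2⟩, rfl⟩
      refine ⟨?_, ?_⟩
      · obtain ⟨w, hw⟩ := h1.principal
        have hw' : J = Ideal.span {w} := hw
        rw [hw', Ideal.span_singleton_mul_span_singleton]
        exact ⟨_, rfl⟩
      · rw [map_mul, hN, h2]
  rw [h1]
  exact Set.ncard_image_of_injective _ (mul_right_injective₀ hP0)

end

/-! ### The sums -/

lemma rr_mul (D k : ℕ) (hD : D ≠ 0) (hk : k ≠ 0) : rr D (D * k) = rr D k := by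
  unfold rr
  symm
  refine Finset.sum_subset ?_ ?_
  · exact Nat.divisors_subset_of_dvd (mul_ne_zero hD hk) (Dvd.intro_left D rfl)
  · intro b hb hb'
    by_contra h
    apply hb'
    have : NeZero D := ⟨hD⟩
    rw [jacobiSym.eq_zero_iff_not_coprime, not_not] at h
    have h1 : Nat.Coprime b D := by
      rw [Nat.Coprime, ← Int.gcd_natCast_natCast]
      exact h
    rw [Nat.mem_divisors] at hb ⊢
    exact ⟨h1.dvd_of_dvd_mul_left hb.1, hk⟩

lemma gg_symm (p q k : ℕ) : gg p q k = gg q p k := by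
  rcases Nat.eq_zero_or_pos k with hk | hk
  · subst hk
    simp [gg]
  unfold gg
  rw [← Nat.sum_div_divisors k (fun d => jacobiSym d p * jacobiSym ((k / d : ℕ) : ℤ) q)]
  refine Finset.sum_congr rfl fun d hd => ?_
  rw [Nat.mem_divisors] at hd
  rw [Nat.div_div_self hd.1 hd.2]
  ring

lemma gg_mul (p q k : ℕ) (hp : p.Prime) (hq : q.Prime) (hpq : p ≠ q) (hp4 : p % 4 = 1)
    (hq4 : q % 4 = 1) (hk : k ≠ 0) : gg p q (p * q * k) = gg p q k := by
  have hq0 : 0 < q := hq.pos
  have hp0 : 0 < p := hp.pos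
  have hrec : jacobiSym q p * jacobiSym p q = 1 := by
    have hodd : Odd q := Nat.odd_iff.2 (by omega)
    have h1 := jacobiSym.quadratic_reciprocity_one_mod_four (a := p) (b := q) hp4 hodd
    rw [h1]
    have h2 : jacobiSym (q : ℤ) p ≠ 0 := by
      have : NeZero p := ⟨hp0.ne'⟩
      rw [Ne, jacobiSym.eq_zero_iff_not_coprime, not_not, Int.gcd_natCast_natCast]
      exact (Nat.coprime_primes hq hp).2 (Ne.symm hpq)
    rcases jacobiSym.trichotomy (q : ℤ) p with h3 | h3 | h3
    · exact absurd h3 h2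
    · rw [h3]; norm_num
    · rw [h3]; norm_num
  have hne : p * q * k ≠ 0 := by positivity
  unfold gg
  have h1 : ∑ d ∈ (p * q * k).divisors, jacobiSym d p * jacobiSym ((p * q * k / d : ℕ) : ℤ) q =
      ∑ d ∈ k.divisors.image (fun d => q * d),
        jacobiSym d p * jacobiSym ((p * q * k / d : ℕ) : ℤ) q := by
    symm
    refine Finset.sum_subset ?_ ?_
    · intro d hd
      rw [Finset.mem_image] at hd
      obtain ⟨e, he, rfl⟩ := hd
      rw [Nat.mem_divisors] at he ⊢
      obtain ⟨c, hc⟩ := he.1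
      refine ⟨⟨p * c, ?_⟩, hne⟩
      rw [hc]
      ring
    · intro d hd hd'
      by_contra h
      apply hd'
      have h2 := left_ne_zero_of_mul h
      have h3 := right_ne_zero_of_mul h
      rw [Nat.mem_divisors] at hd
      obtain ⟨c, hc⟩ := hd.1
      have hd0 : 0 < d := Nat.pos_of_ne_zero (by
        rintro rfl
        rw [zero_mul] at hc
        exact hne hc)
      rw [hc, Nat.mul_div_cancel_left _ hd0] at h3
      have : NeZero p := ⟨hp0.ne'⟩
      have : NeZero q := ⟨hq0.ne'⟩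
      rw [Ne, jacobiSym.eq_zero_iff_not_coprime, not_not, Int.gcd_natCast_natCast] at h2 h3
      have h4 : q ∣ d * c := by
        rw [← hc]
        exact ⟨p * k, by ring⟩
      have h5 : q ∣ d := (Nat.Coprime.symm h3).dvd_of_dvd_mul_right h4
      obtain ⟨e, rfl⟩ := h5
      have h6 : p * k = e * c := by
        apply Nat.eq_of_mul_eq_mul_left hq0
        calc q * (p * k) = p * q * k := by ring
          _ = q * e * c := hc
          _ = q * (e * c) := by ring
      have h7 : p ∣ c := by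
        have h8 : Nat.Coprime e p := Nat.Coprime.coprime_mul_left h2
        exact h8.symm.dvd_of_dvd_mul_left ⟨k, h6.symm⟩
      obtain ⟨f, rfl⟩ := h7
      have h8 : k = e * f := by
        apply Nat.eq_of_mul_eq_mul_left hp0
        rw [h6]
        ring
      rw [Finset.mem_image]
      refine ⟨e, ?_, rfl⟩
      rw [Nat.mem_divisors]
      exact ⟨⟨f, h8⟩, hk⟩
  rw [h1, Finset.sum_image (fun a _ b _ hab => Nat.eq_of_mul_eq_mul_left hq0 hab)]
  refine Finset.sum_congr rfl fun d hd => ?_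
  rw [Nat.mem_divisors] at hd
  obtain ⟨c, hc⟩ := hd.1
  have hd0 : 0 < d := Nat.pos_of_ne_zero (by
    rintro rfl
    rw [zero_mul] at hc
    exact hk hc)
  have e1 : p * q * k / (q * d) = p * c := by
    rw [hc, show p * q * (d * c) = (q * d) * (p * c) by ring]
    exact Nat.mul_div_cancel_left _ (by positivity)
  have e2 : k / d = c := by
    rw [hc]
    exact Nat.mul_div_cancel_left _ hd0
  rw [e1, e2]
  push_cast
  rw [jacobiSym.mul_left, jacobiSym.mul_left]
  linear_combination (jacobiSym d p * jacobiSym c q) * hrec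

lemma gg_eq (p q k : ℕ) (hp : p.Prime) (hq : q.Prime) (hk : k ≠ 0) (hpk : ¬ p ∣ k) :
    gg p q k = jacobiSym k p * rr (p * q) k := by
  rw [gg_symm]
  unfold gg rr
  rw [Finset.mul_sum]
  refine Finset.sum_congr rfl fun d hd => ?_
  rw [Nat.mem_divisors] at hd
  obtain ⟨c, hc⟩ := hd.1
  have hd0 : 0 < d := Nat.pos_of_ne_zero (by
    rintro rfl
    rw [zero_mul] at hc
    exact hk hc)
  have : NeZero p := ⟨hp.ne_zero⟩
  have : NeZero q := ⟨hq.ne_zero⟩
  have h2 : jacobiSym (d : ℤ) p ^ 2 = 1 := by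
    apply jacobiSym.sq_one
    rw [Int.gcd_natCast_natCast]
    rw [Nat.gcd_comm]
    exact (Nat.Prime.coprime_iff_not_dvd hp).2 fun h => hpk (h.trans hd.1)
  have e2 : k / d = c := by
    rw [hc]
    exact Nat.mul_div_cancel_left _ hd0
  rw [e2, jacobiSym.mul_right]
  conv_rhs => rw [hc]
  push_cast
  rw [jacobiSym.mul_left]
  linear_combination (-(jacobiSym (d : ℤ) q) * jacobiSym (c : ℤ) p) * h2

/-- the norm is prime to `p` -/
lemma caseA (hCA : S_CA) (h2 : S_G2) (n p q : ℕ) (hn : n % 2 = 1) (hp : p.Prime) (hq : q.Prime)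
    (hpq : p ≠ q) (hp4 : p % 4 = 1) (hq4 : q % 4 = 1) (hD : n ^ 2 + 4 = p * q) (hH : H2 n)
    (hsf : Squarefree (n ^ 2 + 4)) [IsDedekindDomain (QA 1 (n : ℤ))] (k : ℕ) (hk : k ≠ 0)
    (hpk : ¬ p ∣ k) : 2 * (pcnt n k : ℤ) = rr (p * q) k + gg p q k := by
  have h1 : ∀ I : Ideal (QA 1 (n : ℤ)), Ideal.absNorm I = k →
      (I.IsPrincipal ↔ jacobiSym k p = 1) := by
    intro I hI
    have hI0 : I ≠ ⊥ := by
      rintro rfl
      rw [Ideal.absNorm_bot] at hI
      exact hk hI.symm
    have h3 := h2 n p q hn hp hq hpq hp4 hq4 hD hH I hI0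
    rw [hI] at h3
    exact h3 hpk
  rw [gg_eq p q k hp hq hk hpk]
  have hca := hCA n hn hsf k hk
  rw [hD] at hca
  by_cases hj : jacobiSym k p = 1
  · have h3 : pcnt n k = {I : Ideal (QA 1 (n : ℤ)) | Ideal.absNorm I = k}.ncard := by
      unfold pcnt
      congr 1
      ext I
      simp only [Set.mem_ofPred_eq]
      constructor
      · exact fun h => h.2
      · exact fun h => ⟨(h1 I h).2 hj, h⟩
    rw [h3, hca, hj]
    ring
  · have h3 : pcnt n k = 0 := by
      unfold pcnt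
      have h4 : {I : Ideal (QA 1 (n : ℤ)) | I.IsPrincipal ∧ Ideal.absNorm I = k} = ∅ := by
        ext I
        simp only [Set.mem_ofPred_eq, Set.mem_empty_iff_false, iff_false]
        rintro ⟨h5, h6⟩
        exact hj ((h1 I h6).1 h5)
      rw [h4, Set.ncard_empty]
    have h4 : jacobiSym (k : ℤ) p ≠ 0 := by
      have : NeZero p := ⟨hp.ne_zero⟩
      rw [Ne, jacobiSym.eq_zero_iff_not_coprime, not_not, Int.gcd_natCast_natCast, Nat.gcd_comm]
      exact (Nat.Prime.coprime_iff_not_dvd hp).2 hpk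
    rcases jacobiSym.trichotomy (k : ℤ) p with h5 | h5 | h5
    · exact absurd h5 h4
    · exact absurd h5 hj
    · rw [h3, h5]
      push_cast
      ring

/-- **G5**: the number of principal ideals -/
theorem g5 (hCA : S_CA) (h2 : S_G2) : S_G5 := by
  intro n p q hn hp hq hpq hp4 hq4 hD hH _ k
  have hcop : Nat.Coprime p q := (Nat.coprime_primes hp hq).2 hpq
  have hsf : Squarefree (n ^ 2 + 4) := by
    rw [hD, Nat.squarefree_mul hcop]
    exact ⟨hp.squarefree, hq.squarefree⟩
  have hsfZ : Squarefree ((n : ℤ) ^ 2 + 4) := by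
    have h3 : ((n : ℤ) ^ 2 + 4) = ((n ^ 2 + 4 : ℕ) : ℤ) := by push_cast; rfl
    rw [h3, Int.squarefree_natCast]
    exact hsf
  induction k using Nat.strong_induction_on with
  | _ k ih =>
    intro hk
    by_cases hpk : p ∣ k
    · by_cases hqk : q ∣ k
      · obtain ⟨k', rfl⟩ := hcop.mul_dvd_of_dvd_of_dvd hpk hqk
        have hk' : k' ≠ 0 := right_ne_zero_of_mul hk
        have hlt : k' < p * q * k' := by
          have h3 : 1 < p * q := by
            have := hp.two_le
            have := hq.two_le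
            nlinarith
          have h4 : 0 < k' := Nat.pos_of_ne_zero hk'
          nlinarith
        have e1 : pcnt n (p * q * k') = pcnt n k' := by
          rw [← hD]
          exact pcnt_mul hn hsfZ k'
        rw [e1, rr_mul (p * q) k' (by have := hp.pos; have := hq.pos; positivity) hk',
          gg_mul p q k' hp hq hpq hp4 hq4 hk']
        exact ih k' hlt hk'
      · have h3 := caseA hCA h2 n q p hn hq hp (Ne.symm hpq) hq4 hp4 (by rw [hD, mul_comm]) hH hsf k
          hk hqk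
        rw [h3, gg_symm p q, mul_comm p q]
    · exact caseA hCA h2 n p q hn hp hq hpq hp4 hq4 hD hH hsf k hk hpk

end Pool.Agent.N123.LEG5
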