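import Mathlib
import Pool.Agent.N964.MX.Defs
import Pool.Agent.N967.Gam

set_option autoImplicit false

/-!
# The gamma factor at distance at most one from the critical line (project MX, part C)
-/

namespace Pool.Agent.N123.MXC

open Complex MeasureTheory
open Pool.Agent.H295R2 (fz)
open Pool.Agent.Y23 (Lg one_le_Lg)
open Pool.Agent.H24R2.JP (XX)
open Pool.Agent.N967 (horiz gammaR_diff half_re HG)

/-- the formula for `XX` away from the poles -/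
lemma XX_eq' {w : ℂ} (h0 : 0 ≤ w.re) (h : w.im ≠ 0) : XX w = HG w * riemannZeta (1 / 2 + w) := by
  have e1 : (1 / 2 + w : ℂ) ≠ 0 := by
    intro h'
    have := congrArg Complex.im h'
    simp at this
    exact h this
  have e2 : (1 - (1 / 2 + w) : ℂ) ≠ 0 := by
    intro h'
    have := congrArg Complex.im h'
    simp at this
    exact h this
  have h4 := Gammaℝ_ne_zero_of_re_pos (half_re (w := w) (by linarith))
  rw [Pool.Agent.H24R2.JP.Zer.XX_eq w e1 e2, riemannZeta_def_of_ne_zero e1, HG]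
  generalize Gammaℝ (1 / 2 + w) = G at h4 ⊢
  field_simp

/-- the gamma factor with the growth removed -/
noncomputable def Hn (L : ℝ) (w : ℂ) : ℂ := Gammaℝ (1 / 2 + w) * exp (-(w / 2) * L)

lemma Hn_der (L : ℝ) {w : ℂ} (hw : 0 ≤ w.re) :
    HasDerivAt (Hn L) ((logDeriv Gammaℝ (1 / 2 + w) - 1 / 2 * L) * Hn L w) w := by
  have h0 := Gammaℝ_ne_zero_of_re_pos (half_re hw)
  have d2 : HasDerivAt (fun w : ℂ => Gammaℝ (1 / 2 + w)) (deriv Gammaℝ (1 / 2 + w) * 1) w :=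
    HasDerivAt.comp w (gammaR_diff (half_re hw)).hasDerivAt ((hasDerivAt_id w).const_add _)
  have d3 : HasDerivAt (fun w : ℂ => exp (-(w / 2) * L)) (exp (-(w / 2) * L) * (-(1 / 2) * L)) w := by
    have : HasDerivAt (fun w : ℂ => -(w / 2) * (L : ℂ)) (-(1 / 2) * L) w :=
      (((hasDerivAt_id w).div_const 2).neg).mul_const _
    exact this.cexp
  have d4 := d2.mul d3
  refine HasDerivAt.congr_deriv d4 ?_
  rw [logDeriv_apply, Hn]
  generalize deriv Gammaℝ (1 / 2 + w) = D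
  generalize Gammaℝ (1 / 2 + w) = G at h0 ⊢
  field_simp
  ring

lemma norm_Hn (L u t : ℝ) : ‖Hn L (u + t * I)‖ =
    ‖Gammaℝ (1 / 2 + (u + t * I))‖ * Real.exp (-(u / 2) * L) := by
  rw [Hn, norm_mul, Complex.norm_exp]
  congr 2
  simp

theorem gamma_ratio : ∃ C : ℝ, 0 < C ∧ ∀ δ t : ℝ, 0 ≤ δ → δ ≤ 1 → 1 ≤ |t| →
    ‖Gammaℝ (1 / 2 + (δ + t * I))‖ * Real.exp ((2 - δ) / 2 * Real.log |t|) ≤
      Real.exp C * ‖Gammaℝ (1 / 2 + ((2 : ℝ) + t * I))‖ := by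
  obtain ⟨C, hC, hG⟩ := H370.DL.logDeriv_Gammaℝ_bound
  refine ⟨C * 2 + 1, by positivity, fun δ t h0 h1 ht => ?_⟩
  set L := Real.log |t| with hL
  have hre : ∀ u : ℝ, ((u : ℂ) + t * I).re = u := by intro u; simp
  have hd : ∀ u : ℝ, (0 : ℝ) ≤ u → u ≤ 2 → DifferentiableAt ℂ (Hn L) (u + t * I) := by
    intro u hu _
    exact (Hn_der L (by rw [hre]; exact hu)).differentiableAt
  have hb : ∀ u : ℝ, (0 : ℝ) ≤ u → u ≤ 2 → ‖deriv (Hn L) (u + t * I)‖ ≤ C * ‖Hn L (u + t * I)‖ := by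
    intro u hu hu'
    rw [(Hn_der L (by rw [hre]; exact hu)).deriv, norm_mul]
    refine mul_le_mul_of_nonneg_right ?_ (norm_nonneg _)
    have him' : (1 / 2 + ((u : ℂ) + t * I)).im = t := by simp
    have hre' : (1 / 2 + ((u : ℂ) + t * I)).re = 1 / 2 + u := by simp
    have h3 := hG (1 / 2 + (u + t * I)) (by rw [hre']; linarith) (by rw [hre']; linarith)
      (by rw [him']; exact ht)
    rw [him'] at h3
    exact h3
  have h2 := (horiz (H := Hn L) (p := 0) (q := 2) (K := C) (t := t) hC hd hb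
    (a := δ) (b := 2) h0 (by linarith) (by norm_num) le_rfl).1
  rw [norm_Hn, norm_Hn] at h2
  have h3 : C * |δ - 2| ≤ C * 2 := by
    apply mul_le_mul_of_nonneg_left _ hC
    rw [abs_le]; constructor <;> linarith
  have h4 : Real.exp (C * |δ - 2|) ≤ Real.exp (C * 2 + 1) := Real.exp_le_exp.2 (by linarith)
  have h5 : Real.exp ((2 - δ) / 2 * L) = Real.exp (-(δ / 2) * L) * Real.exp L := by
    rw [← Real.exp_add]; congr 1; ring
  have h6 : Real.exp (-((2 : ℝ) / 2) * L) * Real.exp L = 1 := by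
    rw [← Real.exp_add]
    have : -((2 : ℝ) / 2) * L + L = 0 := by ring
    rw [this, Real.exp_zero]
  rw [h5]
  set G1 := ‖Gammaℝ (1 / 2 + ((δ : ℂ) + t * I))‖
  set G2 := ‖Gammaℝ (1 / 2 + (((2 : ℝ) : ℂ) + t * I))‖
  have hG2 : 0 ≤ G2 := norm_nonneg _
  calc G1 * (Real.exp (-(δ / 2) * L) * Real.exp L) = (G1 * Real.exp (-(δ / 2) * L)) * Real.exp L := by
        ring
    _ ≤ (Real.exp (C * |δ - 2|) * (G2 * Real.exp (-((2 : ℝ) / 2) * L))) * Real.exp L := by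
        gcongr
    _ = Real.exp (C * |δ - 2|) * G2 * (Real.exp (-((2 : ℝ) / 2) * L) * Real.exp L) := by ring
    _ = Real.exp (C * |δ - 2|) * G2 := by rw [h6, mul_one]
    _ ≤ _ := by gcongr

lemma quad_le {δ t : ℝ} (h0 : 0 ≤ δ) (h1 : δ ≤ 1) :
    ‖(4 * (δ + t * I) ^ 2 - 1 : ℂ)‖ ≤ ‖(4 * ((2 : ℝ) + t * I) ^ 2 - 1 : ℂ)‖ := by
  have key : ∀ u : ℝ, ‖(4 * (u + t * I) ^ 2 - 1 : ℂ)‖ =
      Real.sqrt ((4 * (u ^ 2 - t ^ 2) - 1) ^ 2 + (8 * u * t) ^ 2) := by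
    intro u
    rw [Complex.norm_eq_sqrt_sq_add_sq]
    congr 2
    · simp [pow_two]
    · simp [pow_two]; ring
  rw [key, key]
  apply Real.sqrt_le_sqrt
  have a : 0 ≤ 4 - δ ^ 2 := by nlinarith
  have e : (4 * (2 ^ 2 - t ^ 2) - 1) ^ 2 + (8 * 2 * t) ^ 2 -
      ((4 * (δ ^ 2 - t ^ 2) - 1) ^ 2 + (8 * δ * t) ^ 2) =
      (4 - δ ^ 2) * (16 * (4 + δ ^ 2) + 32 * t ^ 2 - 8) := by ring
  have : 0 ≤ (4 - δ ^ 2) * (16 * (4 + δ ^ 2) + 32 * t ^ 2 - 8) := by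
    apply mul_nonneg a
    nlinarith [sq_nonneg δ, sq_nonneg t]
  linarith

/-- MX/C: the gamma factor -/
theorem gamma : Pool.Agent.N964.MX.S_gamma := by
  obtain ⟨C, hC, hG⟩ := gamma_ratio
  obtain ⟨K, hK1, hK⟩ := Pool.Agent.H295R2.zeta_bounds (a := 3 / 2) (by norm_num)
  have hlK := Real.log_nonneg hK1
  have hl4 : 0 < Real.log 4 := Real.log_pos (by norm_num)
  refine ⟨C + Real.log K + Real.log 4, by positivity, fun δ t h0 h1 ht => ?_⟩
  have ht0 : t ≠ 0 := by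
    intro h
    rw [h, abs_zero] at ht
    linarith
  have e1 : XX (δ + t * I) = HG (δ + t * I) * riemannZeta (1 / 2 + (δ + t * I)) :=
    XX_eq' (by simpa using h0) (by simpa using ht0)
  have e2 : XX (2 + t * I) = HG ((2 : ℝ) + t * I) * riemannZeta (1 / 2 + (2 + t * I)) := by
    have := XX_eq' (w := 2 + t * I) (by simp) (by simpa using ht0)
    simpa using this
  have r2 : (3 / 2 : ℝ) ≤ (1 / 2 + ((2 : ℂ) + t * I)).re := by simp; norm_num
  have hz2 : riemannZeta (1 / 2 + (2 + t * I)) ≠ 0 :=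
    riemannZeta_ne_zero_of_one_lt_re (by linarith)
  have hne2 : (1 / 2 + ((2 : ℂ) + t * I)) ≠ 1 := by
    intro h
    rw [h] at r2
    norm_num at r2
  have h3 := (hK _ r2).2
  rw [Pool.Agent.H295R2.fz_eq hne2, norm_inv] at h3
  have h4 : 1 ≤ K * ‖riemannZeta (1 / 2 + (2 + t * I))‖ := by
    have := norm_pos_iff.2 hz2
    rwa [inv_le_iff_one_le_mul₀ this] at h3
  have ez : (1 / 2 + (δ : ℂ) + t * I) = 1 / 2 + (δ + t * I) := by ring
  rw [ez, e1, e2, norm_mul, norm_mul, HG, HG, norm_mul, norm_mul]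
  have hLg : Lg t ≤ Real.log |t| + Real.log 4 := by
    rw [← Real.log_mul (by linarith) (by norm_num)]
    apply Real.log_le_log
    · have := abs_nonneg t; linarith
    · linarith
  have hLt : 0 ≤ Real.log |t| := Real.log_nonneg ht
  have hexp : Real.exp ((2 - δ) / 2 * Lg t - (C + Real.log K + Real.log 4)) ≤
      Real.exp ((2 - δ) / 2 * Real.log |t|) * Real.exp (-C) * K⁻¹ := by
    have : K⁻¹ = Real.exp (-Real.log K) := by
      rw [Real.exp_neg, Real.exp_log (by linarith)]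
    rw [this, ← Real.exp_add, ← Real.exp_add]
    apply Real.exp_le_exp.2
    nlinarith
  have hq := quad_le (t := t) h0 h1
  have hg := hG δ t h0 h1 ht
  set Q1 := ‖(4 * (δ + t * I) ^ 2 - 1 : ℂ)‖
  set Q2 := ‖(4 * ((2 : ℝ) + t * I) ^ 2 - 1 : ℂ)‖
  set G1 := ‖Gammaℝ (1 / 2 + ((δ : ℂ) + t * I))‖
  set G2 := ‖Gammaℝ (1 / 2 + (((2 : ℝ) : ℂ) + t * I))‖
  set Z1 := ‖riemannZeta (1 / 2 + ((δ : ℂ) + t * I))‖
  set Z2 := ‖riemannZeta (1 / 2 + (2 + t * I))‖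
  have hQ1 : 0 ≤ Q1 := norm_nonneg _
  have hQ2 : 0 ≤ Q2 := norm_nonneg _
  have hG1 : 0 ≤ G1 := norm_nonneg _
  have hG2 : 0 ≤ G2 := norm_nonneg _
  have hZ1 : 0 ≤ Z1 := norm_nonneg _
  have hZ2 : 0 ≤ Z2 := norm_nonneg _
  have hKi : K⁻¹ ≤ Z2 := by
    rw [inv_le_iff_one_le_mul₀ (by linarith)]
    linarith [mul_comm K Z2]
  have hee : Real.exp (-C) * Real.exp C = 1 := by
    rw [← Real.exp_add]; simp
  have hKp : 0 ≤ K⁻¹ := by positivity
  calc Q1 * G1 * Z1 * Real.exp ((2 - δ) / 2 * Lg t - (C + Real.log K + Real.log 4))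
      ≤ Q1 * G1 * Z1 * (Real.exp ((2 - δ) / 2 * Real.log |t|) * Real.exp (-C) * K⁻¹) := by gcongr
    _ = Q1 * (G1 * Real.exp ((2 - δ) / 2 * Real.log |t|)) * Z1 * Real.exp (-C) * K⁻¹ := by ring
    _ ≤ Q2 * (Real.exp C * G2) * Z1 * Real.exp (-C) * Z2 := by gcongr
    _ = Q2 * G2 * Z2 * Z1 * (Real.exp (-C) * Real.exp C) := by ring
    _ = Q2 * G2 * Z2 * Z1 := by rw [hee, mul_one]

end Pool.Agent.N123.MXC
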