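import Mathlib
import Pool.Agent.N753.SU.StmO
import Pool.Agent.N753.SU.Unif

/-!
# Points with given divisors and given distance to a point, uniformly in the polynomial
-/

set_option autoImplicit false
set_option linter.unusedSectionVars false

namespace Pool.Agent.N123.OD1

open NumberField IsDedekindDomain Finset Pool.Agent.H691R3
open Pool.Agent.TH876.Loc hiding mx
open Pool.Agent.N753.LS Pool.Agent.N753.SF Pool.Agent.N753.SU Polynomial
open H645.ABC (vl vl_mul vl_div vl_inv vl_pow)

/-- a separable polynomial times a linear one which does not divide it is not a square -/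
theorem not_sqU {F : Type} [Field F] (f a b : F[X]) {n : F} (hn : n ≠ 0)
    (hab : a * f + b * derivative f = C n) (hd : 1 ≤ f.natDegree) (ζ : F) (hζ : f.eval ζ ≠ 0)
    (c : F) (h : F[X]) :
    f * (X - C ζ) ≠ C c * h ^ 2 := by
  classical
  intro he
  let L := AlgebraicClosure F
  let i := algebraMap F L
  have hf0 : f ≠ 0 := by
    rintro rfl
    simp at hd
  have hsep : (f.map i).Separable := by
    refine ⟨C (i n)⁻¹ * a.map i, C (i n)⁻¹ * b.map i, ?_⟩
    have h1 := congrArg (Polynomial.map i) hab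
    rw [Polynomial.map_add, Polynomial.map_mul, Polynomial.map_mul, Polynomial.map_C,
      ← derivative_map] at h1
    have h3 : i n ≠ 0 := by
      intro h0
      exact hn (i.injective (by rw [h0, map_zero]))
    rw [mul_assoc, mul_assoc, ← mul_add, h1, ← C_mul, inv_mul_cancel₀ h3, C_1]
  have hcard : (f.map i).roots.card = f.natDegree := by
    rw [← natDegree_map i, ← (IsAlgClosed.splits (f.map i)).natDegree_eq_card_roots]
  obtain ⟨ρ, hρ, hρζ⟩ : ∃ ρ ∈ (f.map i).roots, ρ ≠ i ζ := by
    have h3 : 0 < (f.map i).roots.card := by omega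
    obtain ⟨ρ, hρ⟩ := Multiset.card_pos_iff_exists_mem.1 h3
    refine ⟨ρ, hρ, fun h4 => hζ ?_⟩
    have h5 : (f.map i).eval ρ = 0 := (mem_roots'.1 hρ).2
    rw [h4, eval_map, eval₂_at_apply] at h5
    exact i.injective (by rw [h5, map_zero])
  have hfρ : (f.map i).eval ρ = 0 := (mem_roots'.1 hρ).2
  have hc0 : c ≠ 0 := by
    rintro rfl
    rw [C_0, zero_mul, mul_eq_zero] at he
    rcases he with h3 | h3
    · exact hf0 h3
    · exact X_sub_C_ne_zero ζ h3
  have he' := congrArg (Polynomial.map i) he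
  simp only [Polynomial.map_mul, Polynomial.map_sub, Polynomial.map_X, Polynomial.map_C,
    Polynomial.map_pow] at he'
  have h3 : (h.map i).eval ρ = 0 := by
    have h4 := congrArg (Polynomial.eval ρ) he'
    rw [eval_mul, hfρ, zero_mul, eval_mul, eval_C, eval_pow] at h4
    have h5 : i c ≠ 0 := fun h0 => hc0 (i.injective (by rw [h0, map_zero]))
    exact pow_eq_zero_iff two_ne_zero |>.1 ((mul_eq_zero.1 h4.symm).resolve_left h5)
  have h4 := congrArg (fun p => Polynomial.eval ρ (derivative p)) he'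
  simp only [derivative_mul, derivative_C, derivative_sub, derivative_X, derivative_pow, eval_add,
    eval_mul, eval_sub, eval_X, eval_C, hfρ, h3, eval_pow, eval_zero, eval_one] at h4
  have h5 : eval ρ (derivative (f.map i)) * (ρ - i ζ) = 0 := by
    simpa using h4
  have h6 : eval ρ (derivative (f.map i)) = 0 :=
    (mul_eq_zero.1 h5).resolve_right (sub_ne_zero.2 hρζ)
  obtain ⟨a', b', hab'⟩ := hsep
  have h7 := congrArg (Polynomial.eval ρ) hab'
  rw [eval_add, eval_mul, eval_mul, hfρ, h6, mul_zero, mul_zero, add_zero, eval_one] at h7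
  exact zero_ne_one h7

section

variable {K : Type} [Field K] [NumberField K]

open Classical in
/-- **the number of classes, uniformly in the polynomial** -/
theorem cell_zU (e : ℕ) : ∃ M : ℝ, 0 ≤ M ∧ ∀ f : (𝓞 K)[X], 1 ≤ f.natDegree → f.natDegree ≤ e →
    ∀ v : Pr K, Good f v → GoodS f v → ∀ z : K, aeval z f ≠ 0 → v ∉ dv f z → ∀ S : Finset K,
      (∀ x ∈ S, x ≠ z) →
      (∀ x ∈ S, ∀ y ∈ S, ∃ w : K, aeval x f * (x - z) = aeval y f * (y - z) * w ^ 2) →
        ((S.image (cls v)).card : ℝ) ≤ Nv v / 2 + M * Real.sqrt (Nv v) := by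
  obtain ⟨M, hM, hgen⟩ := cell_gen (K := K) (e + 1)
  refine ⟨M, hM, fun f hd hde v hv hv' z hz0 hzd S hSz hS => ?_⟩
  obtain ⟨F, hF⟩ : ∃ F : (kk v)[X], F = f.map (Ideal.Quotient.mk v.asIdeal) := ⟨_, rfl⟩
  have hFd : F.natDegree = f.natDegree := by rw [hF]; exact hv.2.1
  have hF0 : F ≠ 0 := by
    rintro h0
    rw [h0, natDegree_zero] at hFd
    omega
  have h2 : (2 : kk v) ≠ 0 := by
    intro h
    have h3 : ringChar (kk v) = 2 := by
      have h4 : ((2 : ℕ) : kk v) = 0 := by exact_mod_cast h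
      have h5 := (ringChar.spec (kk v) 2).1 h4
      rcases (Nat.dvd_prime Nat.prime_two).1 h5 with h6 | h6
      · exfalso
        have := CharP.ringChar_ne_one (R := kk v)
        exact this h6
      · exact h6
    have h4 := FiniteField.even_card_of_char_two h3
    have h5 := hv.1
    omega
  by_cases hz : fv v z ≤ 1
  · -- `z` is integral
    have hzv := (fv_le_one v z).1 hz
    have hFz : F.eval (rd v z) ≠ 0 := by
      obtain ⟨h3, h4⟩ := rd_eval v hzv f
      rw [hF, ← h4, Ne, rd_eq_zero_iff v h3, ← fv_lt_one]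
      intro h5
      exact hzd ((mem_dv hz0).2 ⟨hz, h5⟩)
    have heval : ∀ x : K, v.valuation K x ≤ 1 → v.valuation K (aeval x f * (x - z)) ≤ 1 ∧
        (F * (X - C (rd v z))).eval (rd v x) = rd v (aeval x f * (x - z)) := by
      intro x hx
      have hxz : v.valuation K (x - z) ≤ 1 := (Valuation.map_sub _ _ _).trans (max_le hx hzv)
      obtain ⟨h3, h4⟩ := rd_eval v hx f
      refine ⟨?_, ?_⟩
      · rw [map_mul]
        exact mul_le_one' h3 hxz
      · rw [rd_mul v h3 hxz, rd_sub v hx hzv, h4, eval_mul, eval_sub, eval_X, eval_C, hF]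
    refine hgen v hv.1 (F * (X - C (rd v z))) ?_ ?_ ?_ S ?_
    · rw [natDegree_mul hF0 (X_sub_C_ne_zero _), natDegree_X_sub_C]
      omega
    · rw [natDegree_mul hF0 (X_sub_C_ne_zero _), natDegree_X_sub_C, hFd]
      omega
    · obtain ⟨⟨a, b, n, hab, hn⟩, -⟩ := hv'
      intro c h
      refine not_sqU F (a.map (Ideal.Quotient.mk v.asIdeal)) (b.map (Ideal.Quotient.mk v.asIdeal))
        (n := Ideal.Quotient.mk v.asIdeal n) ?_ ?_ (by rw [hFd]; exact hd) (rd v z) hFz c h
      · rwa [Ne, Ideal.Quotient.eq_zero_iff_mem]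
      · have h3 := congrArg (Polynomial.map (Ideal.Quotient.mk v.asIdeal)) hab
        rw [Polynomial.map_add, Polynomial.map_mul, Polynomial.map_mul, Polynomial.map_C,
          ← derivative_map, ← hF] at h3
        exact h3
    · intro x hx y hy hxv hyv hy0
      obtain ⟨w, hw⟩ := hS x hx y hy
      obtain ⟨h3, h4⟩ := heval x hxv
      obtain ⟨h5, h6⟩ := heval y hyv
      rw [h6, Ne, rd_eq_zero_iff v h5, not_lt] at hy0
      have hy1 : v.valuation K (aeval y f * (y - z)) = 1 := le_antisymm h5 hy0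
      have hw1 : v.valuation K w ≤ 1 := by
        rw [hw, map_mul, hy1, one_mul, map_pow] at h3
        exact (pow_le_one_iff_of_nonneg zero_le two_ne_zero).1 h3
      refine ⟨rd v w, ?_⟩
      rw [h4, h6, hw, sq w, rd_mul v h5 (by rw [map_mul]; exact mul_le_one' hw1 hw1),
        rd_mul v hw1 hw1, sq]
  · -- `z` reduces to the point at infinity
    rw [not_le] at hz
    refine hgen v hv.1 F (by omega) (by omega) (by rw [hF]; exact hv.2.2) S ?_
    intro x hx y hy hxv hyv hy0
    obtain ⟨w, hw⟩ := hS x hx y hy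
    obtain ⟨h3, h4⟩ := rd_eval v hxv f
    obtain ⟨h5, h6⟩ := rd_eval v hyv f
    rw [← hF] at h4 h6
    rw [← h6, Ne, rd_eq_zero_iff v h5, not_lt] at hy0
    have hy1 : v.valuation K (aeval y f) = 1 := le_antisymm h5 hy0
    have hyz : y - z ≠ 0 := sub_ne_zero.2 (hSz y hy)
    obtain ⟨u, hu⟩ : ∃ u : K, u = (x - z) / (y - z) := ⟨_, rfl⟩
    have hxz : x - z = u * (y - z) := by rw [hu, div_mul_cancel₀ _ hyz]
    have hfyz : 1 < fv v (y - z) := by
      by_contra hcon
      rw [not_lt] at hcon
      have h7 : z = y + -(y - z) := by ring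
      have h8 : fv v z ≤ 1 := by
        rw [h7]
        refine (fv_na v _ _).trans (max_le ((fv_le_one v y).2 hyv) ?_)
        rw [(fv v).map_neg]
        exact hcon
      linarith
    have hu1 : v.valuation K (u - 1) < 1 := by
      rw [← fv_lt_one]
      have h7 : u - 1 = (x - y) / (y - z) := by
        rw [hu]
        field_simp
        ring
      rw [h7, map_div₀, div_lt_one (by linarith)]
      refine lt_of_le_of_lt ?_ hfyz
      rw [sub_eq_add_neg]
      refine (fv_na v _ _).trans (max_le ((fv_le_one v x).2 hxv) ?_)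
      rw [(fv v).map_neg]
      exact (fv_le_one v y).2 hyv
    have hu2 : v.valuation K u ≤ 1 := by
      have h7 : u = (u - 1) + 1 := by ring
      rw [h7]
      refine (Valuation.map_add _ _ _).trans (max_le hu1.le ?_)
      rw [map_one]
    have hu3 : rd v u = 1 := by
      have h7 := rd_eq v (x := u) 1 (by rw [map_one]; exact hu1)
      rw [h7, map_one]
    have hw' : aeval x f * u = aeval y f * w ^ 2 := by
      have h7 : (aeval x f * u) * (y - z) = (aeval y f * w ^ 2) * (y - z) := by
        rw [hxz] at hw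
        linear_combination hw
      exact mul_right_cancel₀ hyz h7
    have h8 : v.valuation K (aeval x f * u) ≤ 1 := by
      rw [map_mul]
      exact mul_le_one' h3 hu2
    have hw1 : v.valuation K w ≤ 1 := by
      rw [hw', map_mul, hy1, one_mul, map_pow] at h8
      exact (pow_le_one_iff_of_nonneg zero_le two_ne_zero).1 h8
    refine ⟨rd v w, ?_⟩
    have h9 : rd v (aeval x f * u) = rd v (aeval x f) := by
      rw [rd_mul v h3 hu2, hu3, mul_one]
    rw [← h4, ← h6, ← h9, hw', sq w, rd_mul v h5 (by rw [map_mul]; exact mul_le_one' hw1 hw1),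
      rd_mul v hw1 hw1, sq]

end

open Classical in
/-- **SU/OD1** points with given divisors, uniformly in the polynomial -/
theorem od1 : StmOD1 := by
  intro K _ _ e hodd0 δ hδ
  have he1 : 1 ≤ e := by
    rcases Nat.eq_zero_or_pos e with h | h
    · rw [h] at hodd0
      exact absurd (by decide) hodd0
    · exact h
  obtain ⟨M, hM, hcell⟩ := cell_zU (K := K) e
  obtain ⟨C1, hC1, hls⟩ := ls_bound3 K (κ := 2) one_le_two hM (half_pos hδ)
  obtain ⟨C3, hC3, hcp⟩ := card_primes K (half_pos hδ)
  obtain ⟨ι, hι, c, hc⟩ := H645.ABC.selmer (K := K) 2 two_pos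
  have : Fintype ι := Fintype.ofFinite ι
  refine ⟨C3 * (Fintype.card ι + 1) * (1 + C1), by positivity, ?_⟩
  intro f hfe Bad hBad H hH z hz0 n Y S hS
  have hodd : ¬ Even f.natDegree := by rw [hfe]; exact hodd0
  obtain ⟨β, hβ⟩ : ∃ β : ℝ, β = ∑ v ∈ Bad ∪ dv f z, Real.log (Nv v) := ⟨_, rfl⟩
  have hβ0 : 0 ≤ β := by
    rw [hβ]
    exact Finset.sum_nonneg fun v _ => (log_Nv_pos v).le
  have hβB : ∑ v ∈ Bad, Real.log (Nv v) ≤ β := by
    rw [hβ]
    exact Finset.sum_le_sum_of_subset_of_nonneg Finset.subset_union_left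
      fun v _ _ => (log_Nv_pos v).le
  rw [← hβ]
  obtain ⟨E, hE⟩ : ∃ E : ℝ, E = Real.exp (δ / 2 * (H + β) +
    (2 * H - nrm n) / 2) := ⟨_, rfl⟩
  have hE0 : 0 < E := by rw [hE]; exact Real.exp_pos _
  let g : K → K := fun x => aeval x f * (x - z)
  have hg0 : ∀ x ∈ S, g x ≠ 0 := fun x hx =>
    mul_ne_zero (hS x hx).2.1 (sub_ne_zero.2 (hS x hx).2.2.1)
  -- the odd primes outside `Bad` are given
  have hod : ∀ x ∈ S, ∀ y ∈ S, ∀ v ∉ Bad, v ∈ od (g x) → v ∈ od (g y) := by
    intro x hx y hy v hv h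
    rw [mem_od] at h ⊢
    have e1 : ((Units.mk0 _ (hg0 x hx) : Kˣ) : K) = g x := rfl
    have e2 : ((Units.mk0 _ (hg0 y hy) : Kˣ) : K) = g y := rfl
    rw [← e1, sq_iff] at h
    rw [← e2, sq_iff]
    have h1 := vl_gz (hBad v hv).2.2 (hS x hx).2.1 (hS x hx).2.2.1 (Units.mk0 _ (hg0 x hx)) rfl
    have h2 := vl_gz (hBad v hv).2.2 (hS y hy).2.1 (hS y hy).2.2.1 (Units.mk0 _ (hg0 y hy)) rfl
    have h3 : ml v x z = ml v y z := by
      rw [(hS x hx).2.2.2.2.1 v hv, (hS y hy).2.2.2.2.1 v hv]
    have h4 : Even (nu f v x) ↔ Even (nu f v y) := by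
      have e3 := (hS x hx).2.2.2.2.2 v hv
      have e4 := (hS y hy).2.2.2.2.2 v hv
      rw [e3] at e4
      exact not_iff_not.1 e4
    intro h5
    apply h
    rw [h1]
    rw [h2, ← h3] at h5
    have h6 : Even ((f.natDegree + 1 : ℤ)) := by
      have : ¬ Even (f.natDegree : ℤ) := by exact_mod_cast hodd
      rw [Int.even_add_one]
      exact this
    have h7 : Even ((f.natDegree + 1) * (mxn v x : ℤ)) := h6.mul_right _
    have h8 : Even ((f.natDegree + 1) * (mxn v y : ℤ)) := h6.mul_right _
    have h9 : Even (nu f v x : ℤ) ↔ Even (nu f v y : ℤ) := by exact_mod_cast h4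
    rw [Int.even_sub, Int.even_sub, Int.even_add] at h5 ⊢
    tauto
  let key : K → Finset (Pr K) := fun x => od (g x) ∩ Bad
  have hmaps : ∀ x ∈ S, key x ∈ Bad.powerset := fun x _ =>
    Finset.mem_powerset.2 Finset.inter_subset_right
  have hsum : (S.card : ℝ) = ∑ b ∈ Bad.powerset, ((S.filter fun x => key x = b).card : ℝ) := by
    have := Finset.card_eq_sum_card_fiberwise hmaps
    exact_mod_cast this
  have hfib : ∀ b ∈ Bad.powerset, ((S.filter fun x => key x = b).card : ℝ) ≤
      (Fintype.card ι + 1) * ((1 + C1) * (1 + E)) := by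
    intro b _
    obtain ⟨R, hR⟩ : ∃ R, R = S.filter fun x => key x = b := ⟨_, rfl⟩
    rw [← hR]
    have hRm : ∀ x ∈ R, x ∈ S ∧ key x = b := fun x hx => by
      rw [hR] at hx
      exact Finset.mem_filter.1 hx
    rcases R.eq_empty_or_nonempty with hR0 | ⟨x0, hx0⟩
    · rw [hR0, Finset.card_empty, Nat.cast_zero]
      positivity
    obtain ⟨hx0S, hx0b⟩ := hRm x0 hx0
    have hodR : ∀ x ∈ R, od (g x) = od (g x0) := by
      intro x hx
      obtain ⟨hxS, hxb⟩ := hRm x hx
      ext v
      by_cases hv : v ∈ Bad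
      · have h1 : v ∈ od (g x) ∩ Bad ↔ v ∈ od (g x0) ∩ Bad := by
          have : key x = key x0 := hxb.trans hx0b.symm
          exact Finset.ext_iff.1 this v
        rw [Finset.mem_inter, Finset.mem_inter] at h1
        tauto
      · exact ⟨hod x hxS x0 hx0S v hv, hod x0 hx0S x hxS v hv⟩
    let col : K → ι := fun x => if h : g x / g x0 ≠ 0 then c (Units.mk0 _ h) else c 1
    have hsum2 : (R.card : ℝ) = ∑ a : ι, ((R.filter fun x => col x = a).card : ℝ) := by
      have := Finset.card_eq_sum_card_fiberwise (s := R) (t := Finset.univ) (f := col)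
        (fun x _ => Finset.mem_coe.2 (Finset.mem_univ _))
      exact_mod_cast this
    have hfib2 : ∀ a : ι, ((R.filter fun x => col x = a).card : ℝ) ≤ 1 + C1 * E := by
      intro a
      obtain ⟨S', hS'⟩ : ∃ S', S' = R.filter fun x => col x = a := ⟨_, rfl⟩
      rw [← hS']
      have hm : ∀ x ∈ S', x ∈ R ∧ col x = a := fun x hx => by
        rw [hS'] at hx
        exact Finset.mem_filter.1 hx
      have hpair : ∀ x ∈ S', ∀ y ∈ S', ∃ w : K, aeval x f * (x - z) = aeval y f * (y - z) * w ^ 2 := by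
        intro x hx y hy
        obtain ⟨hxR, hx1⟩ := hm x hx
        obtain ⟨hyR, hy1⟩ := hm y hy
        have h1 : col x = col y := hx1.trans hy1.symm
        have hfx := hg0 x (hRm x hxR).1
        have hfy := hg0 y (hRm y hyR).1
        have hf0 := hg0 x0 hx0S
        have dx : g x / g x0 ≠ 0 := div_ne_zero hfx hf0
        have dy : g y / g x0 ≠ 0 := div_ne_zero hfy hf0
        have h2 : c (Units.mk0 _ dx) = c (Units.mk0 _ dy) := by
          have e1 : col x = c (Units.mk0 _ dx) := dif_pos dx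
          have e2 : col y = c (Units.mk0 _ dy) := dif_pos dy
          rw [← e1, ← e2, h1]
        have h3 : ∀ t (htR : t ∈ R) (dt : g t / g x0 ≠ 0), ∀ v : Pr K,
            ((2 : ℕ) : ℤ) ∣ vl v (Units.mk0 _ dt) := by
          intro t htR dt v
          have e1 : Units.mk0 _ dt = Units.mk0 (g t) (hg0 t (hRm t htR).1) /
              Units.mk0 (g x0) hf0 := by
            ext
            simp
          rw [e1]
          refine even_of_od ?_ v
          rw [Units.val_mk0, Units.val_mk0, hodR t htR]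
        obtain ⟨w, hw⟩ := hc _ _ (h3 x hxR dx) (h3 y hyR dy) h2
        refine ⟨w, ?_⟩
        have h4 := congrArg (fun t : Kˣ => (t : K)) hw
        simp only [Units.val_mk0, Units.val_mul, Units.val_pow_eq_pow_val] at h4
        rw [div_eq_iff hf0] at h4
        have h5 : g x = g y * (w : K) ^ 2 := by
          rw [h4]
          field_simp
        exact h5
      have h1 := hls (Bad ∪ dv f z) H hH S' n.support (nrm n) (by
        rw [nrm_eq]
        refine Finset.sum_le_sum fun v hv => ?_
        have h2 : (1 : ℝ) ≤ n v := by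
          have : n v ≠ 0 := Finsupp.mem_support_iff.1 hv
          exact_mod_cast Nat.one_le_iff_ne_zero.2 this
        have h3 := log_Nv_pos v
        nlinarith) (by
        intro x hx y hy hxy Q hQ hQc
        have hxS := (hRm x (hm x hx).1).1
        have hyS := (hRm y (hm y hy).1).1
        obtain ⟨hx1, hx2, hx3, hx4, hx5, -⟩ := hS x hxS
        obtain ⟨hy1, hy2, hy3, hy4, hy5, -⟩ := hS y hyS
        have h2 := sum_lam_le (aff_ne_zero x) (aff_ne_zero y) (aff_wedge hxy)
          ((n.support ∪ Q).map ⟨Sum.inr, Sum.inr_injective⟩ : Finset (Pl K))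
        rw [Finset.sum_map, Finset.sum_union hQ.symm] at h2
        have h3 : nrm n ≤ ∑ v ∈ n.support, lam (Sum.inr v) (aff x) (aff y) := by
          rw [nrm_eq]
          refine Finset.sum_le_sum fun v hv => ?_
          have hvB := hx4 v hv
          have e1 : (n v : ℝ) * Real.log (Nv v) ≤ lam (Sum.inr v) (aff x) (aff z) := by
            rw [lam_eq_ml v hx3, hx5 v hvB]
          have e2 : (n v : ℝ) * Real.log (Nv v) ≤ lam (Sum.inr v) (aff z) (aff y) := by
            rw [lam_comm, lam_eq_ml v hy3, hy5 v hvB]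
          have e3 := lam_triangle (Sum.inr v) (aff_ne_zero x) (aff_ne_zero z) (aff_ne_zero y)
            (aff_wedge hxy) (aff_wedge hx3) (aff_wedge (Ne.symm hy3)) _ e1 e2
          have e4 : loss (Sum.inr v : Pl K) = 0 := rfl
          rw [e4, sub_zero] at e3
          exact e3
        have h4 : ∑ v ∈ Q, Real.log (Nv v) ≤ ∑ v ∈ Q, lam (Sum.inr v) (aff x) (aff y) :=
          Finset.sum_le_sum fun v hv => lam_ge_of_cls v hxy (hQc v hv)
        have h7 : ∑ x_1 ∈ n.support, lam (Sum.inr x_1) (aff x) (aff y) +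
          ∑ x_1 ∈ Q, lam (Sum.inr x_1) (aff x) (aff y) ≤ hr (aff x) + hr (aff y) + lossK K := h2
        linarith) (fun v _ hvB => by
        rw [Finset.mem_union, not_or] at hvB
        exact hcell f (by omega) (by omega) v (hBad v hvB.1).1 (hBad v hvB.1).2 z hz0 hvB.2 S'
          (fun x hx => (hS x (hRm x (hm x hx).1).1).2.2.1) hpair)
      rw [← hβ, ← hE] at h1
      exact h1
    rw [hsum2]
    calc ∑ a : ι, ((R.filter fun x => col x = a).card : ℝ) ≤ ∑ _a : ι, (1 + C1 * E) :=
          Finset.sum_le_sum fun a _ => hfib2 a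
      _ = Fintype.card ι * (1 + C1 * E) := by
          rw [Finset.sum_const, Finset.card_univ, nsmul_eq_mul]
      _ ≤ (Fintype.card ι + 1) * ((1 + C1) * (1 + E)) := by
          refine mul_le_mul (by linarith) ?_ (by positivity) (by positivity)
          nlinarith
  have hE' : 1 + E ≤ Real.exp (δ / 2 * β) * (1 + Real.exp ((1 + δ) * H - nrm n / 2)) := by
    have e1 : (1 : ℝ) ≤ Real.exp (δ / 2 * β) := Real.one_le_exp (by positivity)
    have e2 : E ≤ Real.exp (δ / 2 * β) * Real.exp ((1 + δ) * H - nrm n / 2) := by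
      rw [hE, ← Real.exp_add]
      refine Real.exp_le_exp.2 ?_
      have : 0 ≤ δ * H := by positivity
      linarith
    linarith
  have h2B : (2 : ℝ) ^ Bad.card ≤ C3 * Real.exp (δ / 2 * β) := by
    refine (hcp Bad).trans (mul_le_mul_of_nonneg_left (Real.exp_le_exp.2 ?_) hC3.le)
    exact mul_le_mul_of_nonneg_left hβB (half_pos hδ).le
  rw [hsum]
  calc ∑ b ∈ Bad.powerset, ((S.filter fun x => key x = b).card : ℝ) ≤
      ∑ _b ∈ Bad.powerset, (Fintype.card ι + 1) * ((1 + C1) * (1 + E)) := Finset.sum_le_sum hfib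
    _ = 2 ^ Bad.card * ((Fintype.card ι + 1) * ((1 + C1) * (1 + E))) := by
        rw [Finset.sum_const, Finset.card_powerset, nsmul_eq_mul]
        push_cast
        ring
    _ ≤ (C3 * Real.exp (δ / 2 * β)) * ((Fintype.card ι + 1) * ((1 + C1) *
        (Real.exp (δ / 2 * β) * (1 + Real.exp ((1 + δ) * H - nrm n / 2))))) := by
        refine mul_le_mul h2B ?_ (by positivity) (by positivity)
        refine mul_le_mul_of_nonneg_left ?_ (by positivity)
        exact mul_le_mul_of_nonneg_left hE' (by positivity)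
    _ = C3 * (Fintype.card ι + 1) * (1 + C1) * (Real.exp (δ / 2 * β) * Real.exp (δ / 2 * β)) *
        (1 + Real.exp ((1 + δ) * H - nrm n / 2)) := by ring
    _ = _ := by
        rw [← Real.exp_add]
        congr 3
        ring

end Pool.Agent.N123.OD1
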