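import Pool.Agent.N646.RG.Stm

/-!
# Project RG, part POL (helper123): Pollard's inequality in the natural numbers
-/

set_option autoImplicit false

namespace Pool.Agent.N123.RGPOL

open Finset

/-- the rank from below -/
def rk (A : Finset ℕ) (a : ℕ) : ℕ := (A.filter (fun x => x < a)).card

/-- the rank from above -/
def ck (B : Finset ℕ) (b : ℕ) : ℕ := (B.filter (fun x => b < x)).card

lemma rk_lt {A : Finset ℕ} {a a' : ℕ} (ha : a ∈ A) (h : a < a') : rk A a < rk A a' := by
  apply Finset.card_lt_card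
  rw [Finset.ssubset_iff_of_subset (fun x hx => by
    rw [Finset.mem_filter] at hx ⊢
    exact ⟨hx.1, hx.2.trans h⟩)]
  exact ⟨a, Finset.mem_filter.2 ⟨ha, h⟩, fun h2 => lt_irrefl _ (Finset.mem_filter.1 h2).2⟩

lemma ck_lt {B : Finset ℕ} {b b' : ℕ} (hb : b ∈ B) (h : b' < b) : ck B b < ck B b' := by
  apply Finset.card_lt_card
  rw [Finset.ssubset_iff_of_subset (fun x hx => by
    rw [Finset.mem_filter] at hx ⊢
    exact ⟨hx.1, h.trans hx.2⟩)]
  exact ⟨b, Finset.mem_filter.2 ⟨hb, h⟩, fun h2 => lt_irrefl _ (Finset.mem_filter.1 h2).2⟩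

lemma rk_card {A : Finset ℕ} {a : ℕ} (ha : a ∈ A) : rk A a < A.card := by
  apply Finset.card_lt_card
  rw [Finset.ssubset_iff_of_subset (Finset.filter_subset _ _)]
  exact ⟨a, ha, fun h2 => lt_irrefl _ (Finset.mem_filter.1 h2).2⟩

lemma ck_card {B : Finset ℕ} {b : ℕ} (hb : b ∈ B) : ck B b < B.card := by
  apply Finset.card_lt_card
  rw [Finset.ssubset_iff_of_subset (Finset.filter_subset _ _)]
  exact ⟨b, hb, fun h2 => lt_irrefl _ (Finset.mem_filter.1 h2).2⟩

lemma rk_inj {A : Finset ℕ} {a a' : ℕ} (ha : a ∈ A) (ha' : a' ∈ A) (h : rk A a = rk A a') :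
    a = a' := by
  rcases lt_trichotomy a a' with h1 | h1 | h1
  · exact absurd h (rk_lt ha h1).ne
  · exact h1
  · exact absurd h (rk_lt ha' h1).ne'

lemma ck_inj {B : Finset ℕ} {b b' : ℕ} (hb : b ∈ B) (hb' : b' ∈ B) (h : ck B b = ck B b') :
    b = b' := by
  rcases lt_trichotomy b b' with h1 | h1 | h1
  · exact absurd h (ck_lt hb' h1).ne'
  · exact h1
  · exact absurd h (ck_lt hb h1).ne

theorem main : Pool.Agent.N646.RG.S_POL := by
  intro A B s hA hB
  obtain ⟨R, hR⟩ : ∃ R : Finset (ℕ × ℕ),
    R = (A ×ˢ B).filter (fun x => min (rk A x.1) (ck B x.2) < s) := ⟨_, rfl⟩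
  -- the number of the pairs
  have h1 : s * (A.card + B.card - s) ≤ R.card := by
    have e1 := Finset.card_filter_add_card_filter_not (s := A ×ˢ B)
      (fun x => min (rk A x.1) (ck B x.2) < s)
    rw [← hR, Finset.card_product] at e1
    have e2 : ((A ×ˢ B).filter (fun x => ¬ min (rk A x.1) (ck B x.2) < s)).card ≤
        (A.card - s) * (B.card - s) := by
      have e3 : ((A ×ˢ B).filter (fun x => ¬ min (rk A x.1) (ck B x.2) < s)).card ≤
          (Finset.Ico s A.card ×ˢ Finset.Ico s B.card).card := by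
        refine Finset.card_le_card_of_injOn (fun x => (rk A x.1, ck B x.2)) ?_ ?_
        · intro x hx
          rw [Finset.mem_coe, Finset.mem_filter, Finset.mem_product] at hx
          obtain ⟨⟨hx1, hx2⟩, hx3⟩ := hx
          rw [Finset.mem_coe, Finset.mem_product, Finset.mem_Ico, Finset.mem_Ico]
          have h4 := rk_card hx1
          have h5 := ck_card hx2
          simp only
          omega
        · intro x hx y hy hxy
          rw [Finset.mem_coe, Finset.mem_filter, Finset.mem_product] at hx hy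
          have h4 := congrArg Prod.fst hxy
          have h5 := congrArg Prod.snd hxy
          exact Prod.ext (rk_inj hx.1.1 hy.1.1 h4) (ck_inj hx.1.2 hy.1.2 h5)
      rw [Finset.card_product, Nat.card_Ico, Nat.card_Ico] at e3
      exact e3
    obtain ⟨x, hx⟩ := Nat.exists_eq_add_of_le hA
    obtain ⟨y, hy⟩ := Nat.exists_eq_add_of_le hB
    rw [hx, hy] at e1 e2 ⊢
    rw [Nat.add_sub_cancel_left, Nat.add_sub_cancel_left] at e2
    rw [show s + x + (s + y) - s = s + x + y by omega]
    nlinarith
  refine h1.trans ?_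
  rw [Finset.card_eq_sum_card_fiberwise (f := fun x : ℕ × ℕ => x.1 + x.2)
    (t := (A ×ˢ B).image (fun x => x.1 + x.2)) (fun x hx => by
      rw [Finset.mem_coe, hR, Finset.mem_filter] at hx
      exact Finset.mem_coe.2 (Finset.mem_image_of_mem _ hx.1))]
  refine Finset.sum_le_sum fun t _ => ?_
  apply le_min
  · have h2 : (R.filter (fun x => x.1 + x.2 = t)).card ≤ (Finset.range s).card := by
      refine Finset.card_le_card_of_injOn (fun x => min (rk A x.1) (ck B x.2)) ?_ ?_
      · intro x hx
        rw [Finset.mem_coe, Finset.mem_filter, hR, Finset.mem_filter] at hx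
        rw [Finset.mem_coe, Finset.mem_range]
        exact hx.1.2
      · intro x hx y hy hxy
        rw [Finset.mem_coe, Finset.mem_filter, hR, Finset.mem_filter, Finset.mem_product] at hx hy
        obtain ⟨⟨⟨hx1, hx2⟩, _⟩, hx3⟩ := hx
        obtain ⟨⟨⟨hy1, hy2⟩, _⟩, hy3⟩ := hy
        simp only at hxy
        rcases lt_trichotomy x.1 y.1 with h3 | h3 | h3
        · have h4 := rk_lt hx1 h3
          have h5 := ck_lt (b := x.2) (b' := y.2) hx2 (by omega)
          omega
        · exact Prod.ext h3 (by omega)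
        · have h4 := rk_lt hy1 h3
          have h5 := ck_lt (b := y.2) (b' := x.2) hy2 (by omega)
          omega
    rwa [Finset.card_range] at h2
  · apply Finset.card_le_card
    intro x hx
    rw [Finset.mem_filter, hR, Finset.mem_filter] at hx
    rw [Finset.mem_filter]
    exact ⟨hx.1.1, hx.2⟩

end Pool.Agent.N123.RGPOL
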